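import Pool.Agent.P8H28.QF.Liea

/-!
# Comparison of the Lie algebra with a larger one
-/

set_option linter.unusedSectionVars false

namespace Pool.Agent.P8H28.QF

open Module MvPolynomial Pool.Agent.P8H28.SQ
open Pool.Agent.W528.ZC (toM toM_mul toM_one I0 mem_I0 InZ Lg WHodge PinkGen Lg_comm CR)
open Pool.Agent.H204R3.GP (HasProj)

noncomputable section

variable {K : Type} [Field K] [CharZero K] {ι : Type} [Fintype ι] [DecidableEq ι] {m : ℕ}
  {Γ : Type} [Group Γ] {R : Representation K Γ (ι → K)}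
  {ω : (ι → K) →ₗ[K] (ι → K) →ₗ[K] K}

/-- Every stable subspace of the tensor power has an equivariant projection. -/
def HasProjT (m : ℕ) (R : Representation K Γ (ι → K)) : Prop :=
  ∀ Δ : Subgroup Γ, Δ.FiniteIndex → ∀ U : Submodule K ((Fin m → ι) → K),
    (∀ s ∈ Δ, ∀ u ∈ U, (tens m (toM (R s))).mulVec u ∈ U) →
    ∃ Q : Module.End K ((Fin m → ι) → K), (∀ v, Q v ∈ U) ∧ (∀ u ∈ U, Q u = u) ∧
      ∀ s ∈ Δ, ∀ v, Q ((tens m (toM (R s))).mulVec v) = (tens m (toM (R s))).mulVec (Q v)

/-- The operator `x` commutes, on the tensors, with all alternating matrices that commute with a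
subgroup of finite index. -/
def CommT (m : ℕ) (R : Representation K Γ (ι → K)) (x : Module.End K (ι → K)) : Prop :=
  ∀ P : Matrix (Fin m → ι) (Fin m → ι) K, Alternating P →
    (∃ Δ : Subgroup Γ, Δ.FiniteIndex ∧
      ∀ g ∈ Δ, P * tens m (toM (R g)) = tens m (toM (R g)) * P) →
    P * LinearMap.toMatrix' (dt m (toM x)) = LinearMap.toMatrix' (dt m (toM x)) * P

theorem alt_of_proj {U : Submodule K ((Fin m → ι) → K)} (hU : U ≤ AT m K ι)
    {Q : Module.End K ((Fin m → ι) → K)} (hQ : ∀ v, Q v ∈ U) :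
    Alternating (LinearMap.toMatrix' (Q * anti m K ι)) := by
  intro σ a b
  constructor
  · rw [LinearMap.toMatrix'_apply, LinearMap.toMatrix'_apply]
    have h1 := hU (hQ (anti m K ι (Pi.single b 1))) σ
    exact congrFun h1 a
  · rw [LinearMap.toMatrix'_apply, LinearMap.toMatrix'_apply]
    have h1 : (Pi.single (b ∘ σ) 1 : (Fin m → ι) → K) = pm K ι σ⁻¹ (Pi.single b 1) := by
      funext a
      rw [pm_apply, Pi.single_apply, Pi.single_apply]
      have h2 : a = b ∘ σ ↔ a ∘ (σ⁻¹ : Equiv.Perm (Fin m)) = b := by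
        constructor
        · rintro rfl
          funext i
          simp only [Function.comp_apply]
          rw [show σ (σ⁻¹ i) = i from σ.apply_symm_apply i]
        · rintro rfl
          funext i
          simp only [Function.comp_apply]
          rw [show σ⁻¹ (σ i) = i from σ.symm_apply_apply i]
      by_cases h3 : a = b ∘ σ
      · rw [if_pos h3, if_pos (h2.1 h3)]
      · rw [if_neg h3, if_neg fun h4 => h3 (h2.2 h4)]
    rw [h1, ← Module.End.mul_apply, mul_assoc, anti_pm, mul_smul_comm, LinearMap.smul_apply,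
      Pi.smul_apply, smul_eq_mul]
    congr 1
    unfold sg
    rw [Equiv.Perm.sign_inv]

/-- The key step: a subspace which is stable under the weak Hodge elements and contains an
alternating tensor `u` contains its image under `x`. -/
theorem key_step (hP : PinkGen ω R) (hT : HasProjT m R) {x : Module.End K (ι → K)}
    (hx : CommT m R x) {W : Submodule K ((Fin m → ι) → K)}
    (hW : ∀ q, WHodge ω R q → ∀ w ∈ W, DT m K ι q w ∈ W) {u : (Fin m → ι) → K}
    (hu : u ∈ AT m K ι) (huW : u ∈ W) : DT m K ι x u ∈ W := by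
  obtain ⟨Δ, hΔ, h⟩ := stable_tens hP m
  have h1 := h (W ⊓ AT m K ι) fun q hq w hw => ⟨hW q hq w hw.1, dt_AT _ hw.2⟩
  obtain ⟨Q, hQ1, hQ2, hQ3⟩ := hT Δ hΔ _ h1
  have h2 := hx _ (alt_of_proj inf_le_right hQ1) ⟨Δ, hΔ, fun g hg => by
    apply Matrix.toLin'.injective
    rw [Matrix.toLin'_mul, Matrix.toLin'_mul, Matrix.toLin'_toMatrix']
    change Q * anti m K ι * Matrix.toLin' _ = Matrix.toLin' _ * (Q * anti m K ι)
    rw [mul_assoc, ← tens_anti, ← mul_assoc, ← mul_assoc]
    congr 1
    refine LinearMap.ext fun v => ?_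
    rw [Module.End.mul_apply, Module.End.mul_apply, Matrix.toLin'_apply, Matrix.toLin'_apply]
    exact hQ3 g hg v⟩
  have h3 := congrArg Matrix.toLin' h2
  rw [Matrix.toLin'_mul, Matrix.toLin'_mul, Matrix.toLin'_toMatrix',
    Matrix.toLin'_toMatrix'] at h3
  have h4 := congrArg (fun f : Module.End K ((Fin m → ι) → K) => f u) h3
  change Q (anti m K ι (dt m (toM x) u)) = dt m (toM x) (Q (anti m K ι u)) at h4
  rw [anti_eq hu, hQ2 u ⟨huW, hu⟩] at h4
  rw [DT_apply, ← h4]
  exact (hQ1 _).1

variable [IsAlgClosed K]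

/-- **The comparison.** -/
theorem cmp (hss : HasProj R) (hP : PinkGen ω R) (hT : HasProjT m R)
    (hnd : ∀ u, (∀ v, ω u v = 0) → u = 0) (hcard : Fintype.card ι = 2 * m)
    (h1 : (1 : Module.End K (ι → K)) ∈ Lg R) {h : Submodule K (Module.End K (ι → K))}
    (hh : IsLie h) (hgh : Lg R ≤ h) (hcom : ∀ x ∈ h, CommT m R x) {x : Module.End K (ι → K)}
    (hx : x ∈ h) : ∃ y ∈ Lg R, CR R (x - y) := by
  obtain ⟨y, hy, h2, -⟩ := compare (D := DT m K ι) DT_rep Lg_isLie hh hgh (Lg_rad hss hP) h1
    (P := {p | WHodge ω R p}) (fun p hp => ⟨hodge_Lg hp, hp.1, by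
      have hp1 : (1 - p) * (1 - p) = 1 - p := by
        rw [mul_sub, mul_one, sub_mul, one_mul, hp.1, sub_self, sub_zero]
      obtain ⟨r1, r2⟩ := hodge_rank hnd hcard hp.1 hp.2.1
      obtain ⟨u, hu, hu'⟩ := exists_ext hp.1 r1
      obtain ⟨v, hv, hv'⟩ := exists_ext hp1 r2
      exact ⟨u, v, hu', hv', fun x hx W hW => ⟨fun h => key_step hP hT (hcom x hx) hW hu h,
        fun h => key_step hP hT (hcom x hx) hW hv h⟩⟩⟩) hx
  exact ⟨y, hy, comm_of_hodge hP fun p hp => h2 p hp⟩

/-- The span of the brackets. -/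
def brS (g : Submodule K (Module.End K (ι → K))) : Submodule K (Module.End K (ι → K)) :=
  Submodule.span K {z | ∃ x ∈ g, ∃ y ∈ g, z = x * y - y * x}

/-- The brackets of the larger Lie algebra are in the smaller one. -/
theorem bracket_mem {h : Submodule K (Module.End K (ι → K))} (hgh : Lg R ≤ h)
    (hcmp : ∀ x ∈ h, ∃ y ∈ Lg R, CR R (x - y)) (hE : ∀ x ∈ h, ∀ Z, CR R Z → x * Z = Z * x)
    {x x' : Module.End K (ι → K)} (hx : x ∈ h) (hx' : x' ∈ h) :
    x * x' - x' * x ∈ brS (Lg R) := by
  obtain ⟨y, hy, h1⟩ := hcmp x hx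
  obtain ⟨y', hy', h2⟩ := hcmp x' hx'
  have h3 := hE x' hx' _ h1
  have h4 := hE y (hgh hy) _ h2
  have h5 : x * x' - x' * x = y * y' - y' * y := by
    have e1 : x' * (x - y) = (x - y) * x' := h3
    have e2 : y * (x' - y') = (x' - y') * y := h4
    rw [mul_sub, sub_mul] at e1 e2
    have e3 : x * x' - x' * x = y * x' - x' * y := by
      rw [sub_eq_sub_iff_add_eq_add]
      rw [sub_eq_sub_iff_add_eq_add] at e1
      rw [← e1]
      abel
    rw [e3]
    rw [sub_eq_sub_iff_add_eq_add] at e2 ⊢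
    rw [e2]
    abel
  rw [h5]
  exact Submodule.subset_span ⟨y, hy, y', hy', rfl⟩

omit [CharZero K] [IsAlgClosed K] in
theorem brS_le {g : Submodule K (Module.End K (ι → K))} (hg : IsLie g) : brS g ≤ g := by
  unfold brS
  rw [Submodule.span_le]
  rintro _ ⟨x, hx, y, hy, rfl⟩
  exact hg x hx y hy

omit [CharZero K] [IsAlgClosed K] in
theorem comm_trace_zero [FiniteDimensional K (ι → K)] {y w : Module.End K (ι → K)}
    (hy : IsNilpotent y) (h : Commute w y) : LinearMap.trace K (ι → K) (w * y) = 0 :=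
  (LinearMap.isNilpotent_trace_of_isNilpotent (h.isNilpotent_mul_left hy)).eq_zero

/-- The Lie algebra is the sum of the brackets and of the centre. -/
theorem reductive (hss : HasProj R) (hP : PinkGen ω R) {y : Module.End K (ι → K)}
    (hy : y ∈ Lg R) : ∃ n ∈ brS (Lg R), ∃ z ∈ Lg R, (∀ w ∈ Lg R, z * w = w * z) ∧ y = n + z := by
  have hrad := Lg_rad hss hP
  have hcen : ∀ z ∈ Lg R, (∀ n ∈ brS (Lg R), LinearMap.trace K _ (n * z) = 0) →
      ∀ w ∈ Lg R, z * w = w * z := by
    intro z hz h w hw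
    have h1 : w * z - z * w ∈ rad (Lg R) := by
      refine ⟨Lg_isLie w hw z hz, fun x hx => ?_⟩
      rw [trace_assoc]
      exact h _ (Submodule.subset_span ⟨x, hx, w, hw, rfl⟩)
    rw [hrad, Submodule.mem_bot, sub_eq_zero] at h1
    exact h1.symm
  have hN : rad (brS (Lg R)) = ⊥ := by
    rw [eq_bot_iff]
    rintro z ⟨hz, h⟩
    have hzg := brS_le Lg_isLie hz
    have h1 := hcen z hzg h
    have hnil : IsNilpotent z := by
      refine nilpotent_of_replicas fun φ z' hz' => ?_
      have h2 := Lg_replica hzg φ z' hz'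
      -- the replica is central
      have h3 : ∀ w ∈ Lg R, z' * w = w * z' := by
        intro w hw
        have h4 : ∀ μ, ∀ v ∈ z.maxGenEigenspace μ, w v ∈ z.maxGenEigenspace μ := by
          intro μ v hv
          exact z.mapsTo_maxGenEigenspace_of_comm (g := w) (h1 w hw) μ hv
        refine LinearMap.ext fun v => ?_
        have h5 : v ∈ ⨆ μ, z.maxGenEigenspace μ := by
          rw [Module.End.iSup_maxGenEigenspace_eq_top]
          trivial
        induction h5 using Submodule.iSup_induction' with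
        | mem μ v hv =>
          rw [Module.End.mul_apply, Module.End.mul_apply, hz' μ _ (h4 μ v hv), hz' μ v hv,
            map_smul]
        | zero => rw [map_zero, map_zero]
        | add a b _ _ ha hb => rw [map_add, map_add, ha, hb]
      have key : ∀ n ∈ brS (Lg R), LinearMap.trace K _ (z' * n) = 0 := by
        intro n hn
        unfold brS at hn
        induction hn using Submodule.span_induction with
        | mem n hn =>
          obtain ⟨a, ha, b, hb, rfl⟩ := hn
          rw [trace_assoc, h3 a ha, sub_self, zero_mul, map_zero]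
        | zero => rw [mul_zero, map_zero]
        | add a b _ _ ha hb => rw [mul_add, map_add, ha, hb, add_zero]
        | smul c a _ ha => rw [mul_smul_comm, map_smul, ha, smul_zero]
      exact key z hz
    have h2 : z ∈ rad (Lg R) := ⟨hzg, fun w hw => comm_trace_zero hnil (h1 w hw).symm⟩
    rwa [hrad] at h2
  obtain ⟨n, hn, h⟩ := exists_orth hN y
  have hng := brS_le Lg_isLie hn
  refine ⟨n, hn, y - n, Submodule.sub_mem _ hy hng, hcen _ (Submodule.sub_mem _ hy hng) h, ?_⟩
  rw [add_sub_cancel]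

end

end Pool.Agent.P8H28.QF
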