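import Pool.Agent.P8H28.QF.Jet
import Pool.Agent.P8H28.QF.Cmp

/-!
# Rational structures
-/

set_option linter.unusedSectionVars false

namespace Pool.Agent.P8H28.QF

open Module MvPolynomial Pool.Agent.P8H28.SQ
open Pool.Agent.W528.ZC (ev ev_X ev_C D D_X D_add D_smul mapQ)

noncomputable section

section crd

variable {k L : Type} [Field k] [Field L] [Algebra k L] {κ κ' : Type} [Fintype κ] [Fintype κ']

/-- The matrix with the values of a linear form at the entries. -/
def crd (φ : L →ₗ[k] k) (x : Matrix κ κ' L) : Matrix κ κ' k := Matrix.of fun a b => φ (x a b)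

theorem crd_apply (φ : L →ₗ[k] k) (x : Matrix κ κ' L) (a : κ) (b : κ') :
    crd φ x a b = φ (x a b) := rfl

theorem lin_smul (φ : L →ₗ[k] k) (c : k) (x : L) : φ (algebraMap k L c * x) = c * φ x := by
  rw [← Algebra.smul_def, map_smul, smul_eq_mul]

theorem lin_smul' (φ : L →ₗ[k] k) (c : k) (x : L) : φ (x * algebraMap k L c) = φ x * c := by
  rw [mul_comm, lin_smul, mul_comm]

theorem crd_mul_left (φ : L →ₗ[k] k) (A : Matrix κ κ k) (x : Matrix κ κ' L) :
    crd φ (A.map (algebraMap k L) * x) = A * crd φ x := by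
  ext a b
  rw [crd_apply, Matrix.mul_apply, Matrix.mul_apply, map_sum]
  exact Finset.sum_congr rfl fun j _ => by rw [Matrix.map_apply, lin_smul, crd_apply]

theorem crd_mul_right (φ : L →ₗ[k] k) (x : Matrix κ κ' L) (A : Matrix κ' κ' k) :
    crd φ (x * A.map (algebraMap k L)) = crd φ x * A := by
  ext a b
  rw [crd_apply, Matrix.mul_apply, Matrix.mul_apply, map_sum]
  exact Finset.sum_congr rfl fun j _ => by rw [Matrix.map_apply, lin_smul', crd_apply]

theorem crd_add (φ : L →ₗ[k] k) (x y : Matrix κ κ' L) :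
    crd φ (x + y) = crd φ x + crd φ y := by
  ext a b
  rw [crd_apply, Matrix.add_apply, map_add]
  rfl

theorem crd_smul (φ : L →ₗ[k] k) (c : L) (A : Matrix κ κ' k) :
    crd φ (c • A.map (algebraMap k L)) = φ c • A := by
  ext a b
  rw [crd_apply, Matrix.smul_apply, Matrix.map_apply, smul_eq_mul, lin_smul', Matrix.smul_apply,
    smul_eq_mul]

theorem crd_transpose (φ : L →ₗ[k] k) (x : Matrix κ κ' L) :
    crd φ x.transpose = (crd φ x).transpose := rfl

/-- Every matrix is a combination of the matrices of its coordinates. -/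
theorem mem_span_crd (x : Matrix κ κ' L) :
    x ∈ Submodule.span L {y | ∃ φ : L →ₗ[k] k, y = (crd φ x).map (algebraMap k L)} := by
  classical
  let b := Module.Free.chooseBasis k L
  let F : Finset (Module.Free.ChooseBasisIndex k L) :=
    Finset.univ.biUnion fun p : κ × κ' => (b.repr (x p.1 p.2)).support
  have hsum : x = ∑ β ∈ F, b β • (crd (b.coord β) x).map (algebraMap k L) := by
    ext i j
    rw [Matrix.sum_apply]
    have h1 := b.linearCombination_repr (x i j)
    rw [Finsupp.linearCombination_apply, Finsupp.sum] at h1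
    conv_lhs => rw [← h1]
    rw [Finset.sum_subset (s₂ := F)]
    · refine Finset.sum_congr rfl fun β _ => ?_
      rw [Matrix.smul_apply, Matrix.map_apply, smul_eq_mul, Algebra.smul_def, mul_comm]
      rfl
    · intro β hβ
      exact Finset.mem_biUnion.2 ⟨(i, j), Finset.mem_univ _, hβ⟩
    · intro β _ hβ
      rw [Finsupp.notMem_support_iff.1 hβ, zero_smul]
  conv => congr; · skip
          · rw [hsum]
  exact Submodule.sum_mem _ fun β _ => Submodule.smul_mem _ _ (Submodule.subset_span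
    ⟨b.coord β, rfl⟩)

end crd

variable {ι : Type} [Fintype ι] [DecidableEq ι] {m : ℕ}

/-- The matrix of the derivation of the tensors. -/
def Td (m : ℕ) {K : Type} [Field K] (x : Matrix ι ι K) : Matrix (Fin m → ι) (Fin m → ι) K :=
  LinearMap.toMatrix' (dt m x)

theorem Td_apply {K : Type} [Field K] (x : Matrix ι ι K) (a b : Fin m → ι) :
    Td m x a b = ∑ k, ∑ j, x (a k) j * (if Function.update a k j = b then 1 else 0) := by
  unfold Td
  rw [LinearMap.toMatrix'_apply, dt_eq, LinearMap.sum_apply, Finset.sum_apply]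
  refine Finset.sum_congr rfl fun k _ => ?_
  rw [dk_apply]
  refine Finset.sum_congr rfl fun j _ => ?_
  rw [Pi.single_apply]

theorem crd_Td {k L : Type} [Field k] [Field L] [Algebra k L] (φ : L →ₗ[k] k)
    (x : Matrix ι ι L) : crd φ (Td m x) = Td m (crd φ x) := by
  ext a b
  rw [crd_apply, Td_apply, Td_apply, map_sum]
  refine Finset.sum_congr rfl fun i _ => ?_
  rw [map_sum]
  refine Finset.sum_congr rfl fun j _ => ?_
  by_cases h : Function.update a i j = b
  · rw [if_pos h, if_pos h, mul_one, mul_one, crd_apply]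
  · rw [if_neg h, if_neg h, mul_zero, mul_zero, map_zero]

theorem Td_map {k L : Type} [Field k] [Field L] [Algebra k L] (x : Matrix ι ι k) :
    Td m (x.map (algebraMap k L)) = (Td m x).map (algebraMap k L) := by
  ext a b
  rw [Matrix.map_apply, Td_apply, Td_apply, map_sum]
  refine Finset.sum_congr rfl fun i _ => ?_
  rw [map_sum]
  refine Finset.sum_congr rfl fun j _ => ?_
  by_cases h : Function.update a i j = b
  · rw [if_pos h, if_pos h, mul_one, mul_one, Matrix.map_apply]
  · rw [if_neg h, if_neg h, mul_zero, mul_zero, map_zero]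

theorem Td_add {K : Type} [Field K] (x y : Matrix ι ι K) : Td m (x + y) = Td m x + Td m y := by
  unfold Td
  rw [map_add, map_add]

theorem Td_smul {K : Type} [Field K] (c : K) (x : Matrix ι ι K) : Td m (c • x) = c • Td m x := by
  unfold Td
  rw [map_smul, map_smul]

theorem Td_br {K : Type} [Field K] (x y : Matrix ι ι K) :
    Td m (x * y - y * x) = Td m x * Td m y - Td m y * Td m x := by
  unfold Td
  rw [dt_br, map_sub]
  congr 1
  · exact LinearMap.toMatrix'_mul _ _
  · exact LinearMap.toMatrix'_mul _ _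

/-- The infinitesimal similitudes of `ψ` that commute with `E` and, on the tensors, with `𝔻`. -/
def hM (m : ℕ) {K : Type} [Field K] (ψ : Matrix ι ι K) (E : Set (Matrix ι ι K))
    (𝔻 : Set (Matrix (Fin m → ι) (Fin m → ι) K)) : Submodule K (Matrix ι ι K) where
  carrier := {x | (∃ c : K, x.transpose * ψ + ψ * x = c • ψ) ∧ (∀ e ∈ E, e * x = x * e) ∧
    ∀ P ∈ 𝔻, P * Td m x = Td m x * P}
  zero_mem' := ⟨⟨0, by simp⟩, fun e _ => by simp, fun P _ => by
    have h : Td m (0 : Matrix ι ι K) = 0 := by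
      unfold Td
      rw [map_zero, map_zero]
    rw [h, mul_zero, zero_mul]⟩
  add_mem' := by
    rintro x y ⟨⟨c, hc⟩, h1, h2⟩ ⟨⟨c', hc'⟩, h1', h2'⟩
    refine ⟨⟨c + c', ?_⟩, fun e he => ?_, fun P hP => ?_⟩
    · rw [Matrix.transpose_add, add_mul, mul_add, add_smul, ← hc, ← hc']
      abel
    · rw [mul_add, add_mul, h1 e he, h1' e he]
    · rw [Td_add, mul_add, add_mul, h2 P hP, h2' P hP]
  smul_mem' := by
    rintro a x ⟨⟨c, hc⟩, h1, h2⟩
    refine ⟨⟨a * c, ?_⟩, fun e he => ?_, fun P hP => ?_⟩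
    · rw [Matrix.transpose_smul, smul_mul_assoc, mul_smul_comm, ← smul_add, hc, mul_smul]
    · rw [mul_smul_comm, smul_mul_assoc, h1 e he]
    · rw [Td_smul, mul_smul_comm, smul_mul_assoc, h2 P hP]

theorem hM_br {K : Type} [Field K] {ψ : Matrix ι ι K} {E : Set (Matrix ι ι K)}
    {𝔻 : Set (Matrix (Fin m → ι) (Fin m → ι) K)} {x y : Matrix ι ι K} (hx : x ∈ hM m ψ E 𝔻)
    (hy : y ∈ hM m ψ E 𝔻) : x * y - y * x ∈ hM m ψ E 𝔻 := by
  obtain ⟨⟨c, hc⟩, h1, h2⟩ := hx
  obtain ⟨⟨c', hc'⟩, h1', h2'⟩ := hy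
  refine ⟨⟨0, ?_⟩, fun e he => ?_, fun P hP => ?_⟩
  · rw [Matrix.transpose_sub, Matrix.transpose_mul, Matrix.transpose_mul, zero_smul]
    have e1 : x.transpose * ψ = c • ψ - ψ * x := eq_sub_of_add_eq hc
    have e2 : y.transpose * ψ = c' • ψ - ψ * y := eq_sub_of_add_eq hc'
    rw [sub_mul, mul_assoc, mul_assoc, e1, e2, mul_sub, mul_sub, mul_smul_comm, mul_smul_comm,
      ← mul_assoc, ← mul_assoc, e1, e2, mul_sub, sub_mul, sub_mul, smul_sub, smul_sub,
      smul_mul_assoc, smul_mul_assoc, smul_comm c c' ψ, mul_assoc, mul_assoc]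
    abel
  · rw [mul_sub, sub_mul, ← mul_assoc, ← mul_assoc, h1 e he, h1' e he, mul_assoc, mul_assoc,
      h1 e he, h1' e he, mul_assoc, mul_assoc]
  · rw [Td_br, mul_sub, sub_mul, ← mul_assoc, ← mul_assoc, h2 P hP, h2' P hP, mul_assoc,
      mul_assoc, h2 P hP, h2' P hP, mul_assoc, mul_assoc]

/-- The coordinates of the elements are solutions. -/
theorem crd_hM {L : Type} [Field L] [Algebra ℚ L] {ψ : Matrix ι ι ℚ} {E : Set (Matrix ι ι ℚ)}
    {𝔻 : Set (Matrix (Fin m → ι) (Fin m → ι) ℚ)} {x : Matrix ι ι L}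
    (hx : x ∈ hM m (mapQ L ψ) (mapQ L '' E) (mapQ L '' 𝔻)) (φ : L →ₗ[ℚ] ℚ) :
    crd φ x ∈ hM m ψ E 𝔻 := by
  obtain ⟨⟨c, hc⟩, h1, h2⟩ := hx
  refine ⟨⟨φ c, ?_⟩, fun e he => ?_, fun P hP => ?_⟩
  · have h3 := congrArg (crd φ) hc
    rw [crd_add] at h3
    unfold mapQ at h3
    rw [crd_mul_right, crd_mul_left, crd_smul, crd_transpose] at h3
    exact h3
  · have h3 := congrArg (crd φ) (h1 _ ⟨e, he, rfl⟩)
    unfold mapQ at h3
    rwa [crd_mul_left, crd_mul_right] at h3
  · have h3 := congrArg (crd φ) (h2 _ ⟨P, hP, rfl⟩)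
    unfold mapQ at h3
    rwa [crd_mul_left, crd_mul_right, crd_Td] at h3

theorem mapQ_hM {L : Type} [Field L] [Algebra ℚ L] {ψ : Matrix ι ι ℚ} {E : Set (Matrix ι ι ℚ)}
    {𝔻 : Set (Matrix (Fin m → ι) (Fin m → ι) ℚ)} {x : Matrix ι ι ℚ} (hx : x ∈ hM m ψ E 𝔻) :
    mapQ L x ∈ hM m (mapQ L ψ) (mapQ L '' E) (mapQ L '' 𝔻) := by
  obtain ⟨⟨c, hc⟩, h1, h2⟩ := hx
  refine ⟨⟨algebraMap ℚ L c, ?_⟩, ?_, ?_⟩
  · have h3 := congrArg (fun M : Matrix ι ι ℚ => M.map (algebraMap ℚ L)) hc
    simp only [Matrix.map_add _ (map_add _), Matrix.map_mul] at h3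
    unfold mapQ
    rw [← Matrix.transpose_map, h3]
    ext i j
    simp only [Matrix.map_apply, Matrix.smul_apply, smul_eq_mul, map_mul]
  · rintro _ ⟨e, he, rfl⟩
    unfold mapQ
    rw [← Matrix.map_mul, h1 e he, Matrix.map_mul]
  · rintro _ ⟨P, hP, rfl⟩
    unfold mapQ
    rw [Td_map, ← Matrix.map_mul, h2 P hP, Matrix.map_mul]

/-- The brackets of the solutions over `L` are combinations of the rational brackets. -/
theorem br_span {L : Type} [Field L] [Algebra ℚ L] {ψ : Matrix ι ι ℚ} {E : Set (Matrix ι ι ℚ)}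
    {𝔻 : Set (Matrix (Fin m → ι) (Fin m → ι) ℚ)} {x y : Matrix ι ι L}
    (hx : x ∈ hM m (mapQ L ψ) (mapQ L '' E) (mapQ L '' 𝔻))
    (hy : y ∈ hM m (mapQ L ψ) (mapQ L '' E) (mapQ L '' 𝔻)) :
    x * y - y * x ∈ Submodule.span L (mapQ L '' {z | ∃ a ∈ hM m ψ E 𝔻, ∃ b ∈ hM m ψ E 𝔻,
      z = a * b - b * a}) := by
  have h1 := mem_span_crd (k := ℚ) x
  have h2 := mem_span_crd (k := ℚ) y
  have hx' := fun φ => crd_hM hx φ
  have hy' := fun φ => crd_hM hy φ
  have key : ∀ x' ∈ Submodule.span L {z | ∃ φ : L →ₗ[ℚ] ℚ, z = (crd φ x).map (algebraMap ℚ L)},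
      ∀ y' ∈ Submodule.span L {z | ∃ φ : L →ₗ[ℚ] ℚ, z = (crd φ y).map (algebraMap ℚ L)},
      x' * y' - y' * x' ∈ Submodule.span L (mapQ L '' {z | ∃ a ∈ hM m ψ E 𝔻,
        ∃ b ∈ hM m ψ E 𝔻, z = a * b - b * a}) := by
    intro x' hx1 y' hy1
    induction hx1 using Submodule.span_induction with
    | mem x' hx1 =>
      obtain ⟨φ, rfl⟩ := hx1
      induction hy1 using Submodule.span_induction with
      | mem y' hy1 =>
        obtain ⟨φ', rfl⟩ := hy1
        refine Submodule.subset_span ⟨_, ⟨_, hx' φ, _, hy' φ', rfl⟩, ?_⟩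
        unfold mapQ
        rw [Matrix.map_sub _ (map_sub _), Matrix.map_mul, Matrix.map_mul]
      | zero => rw [mul_zero, zero_mul, sub_zero]; exact Submodule.zero_mem _
      | add a b _ _ ha hb =>
        have h3 := Submodule.add_mem _ ha hb
        convert h3 using 1
        rw [mul_add, add_mul]
        abel
      | smul c a _ ha =>
        have h3 := Submodule.smul_mem _ c ha
        convert h3 using 1
        rw [mul_smul_comm, smul_mul_assoc, smul_sub]
    | zero => rw [mul_zero, zero_mul, sub_zero]; exact Submodule.zero_mem _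
    | add a b _ _ ha hb =>
      have h3 := Submodule.add_mem _ ha hb
      convert h3 using 1
      rw [mul_add, add_mul]
      abel
    | smul c a _ ha =>
      have h3 := Submodule.smul_mem _ c ha
      convert h3 using 1
      rw [mul_smul_comm, smul_mul_assoc, smul_sub]
  exact key x h1 y h2

/-! ### Polynomials -/

section pol

variable (L : Type) [Field L] [Algebra ℚ L]

theorem D_map (y : Matrix ι ι ℚ) (f : MvPolynomial (ι × ι) ℚ) :
    D (mapQ L y) (MvPolynomial.map (algebraMap ℚ L) f) =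
      MvPolynomial.map (algebraMap ℚ L) (D y f) := by
  induction f using MvPolynomial.induction_on with
  | C a =>
    rw [MvPolynomial.map_C, ← algebraMap_eq, ← algebraMap_eq]
    rw [Derivation.map_algebraMap, Derivation.map_algebraMap, map_zero]
  | add f g hf hg => rw [map_add, map_add, hf, hg, map_add, map_add]
  | mul_X f q hf =>
    rw [map_mul, MvPolynomial.map_X, Derivation.leibniz, Derivation.leibniz, hf, map_add,
      smul_eq_mul, smul_eq_mul, smul_eq_mul, smul_eq_mul, map_mul, map_mul, MvPolynomial.map_X,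
      D_X, D_X, map_sum]
    congr 2
    refine Finset.sum_congr rfl fun j _ => ?_
    rw [map_mul, MvPolynomial.map_C, MvPolynomial.map_X]
    rfl

theorem ev_one_map (f : MvPolynomial (ι × ι) ℚ) :
    ev (1 : Matrix ι ι L) (MvPolynomial.map (algebraMap ℚ L) f) =
      algebraMap ℚ L (ev (1 : Matrix ι ι ℚ) f) := by
  induction f using MvPolynomial.induction_on with
  | C a => rw [MvPolynomial.map_C, ev_C, ev_C]
  | add f g hf hg => rw [map_add, map_add, hf, hg, map_add, map_add]
  | mul_X f q hf =>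
    rw [map_mul, map_mul, hf, map_mul, map_mul, MvPolynomial.map_X, ev_X, ev_X]
    congr 1
    rw [Matrix.one_apply, Matrix.one_apply]
    split_ifs
    · rw [map_one]
    · rw [map_zero]

theorem ev_map (g : Matrix ι ι L) (f : MvPolynomial (ι × ι) ℚ) :
    ev g (MvPolynomial.map (algebraMap ℚ L) f) = MvPolynomial.aeval (fun p => g p.1 p.2) f := by
  unfold ev
  rw [MvPolynomial.aeval_map_algebraMap]

theorem dl_map (l : List (Matrix ι ι ℚ)) (f : MvPolynomial (ι × ι) ℚ) :
    dl (l.map (mapQ L)) (MvPolynomial.map (algebraMap ℚ L) f) =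
      MvPolynomial.map (algebraMap ℚ L) (dl l f) := by
  induction l with
  | nil => rfl
  | cons y l ih => rw [List.map_cons, dl_cons, dl_cons, ih, D_map]

theorem exists_expand {β : Type} (b : Basis β ℚ L) (f : MvPolynomial (ι × ι) L) :
    ∃ F : β →₀ MvPolynomial (ι × ι) ℚ,
      f = F.sum fun i h => b i • MvPolynomial.map (algebraMap ℚ L) h := by
  classical
  induction f using MvPolynomial.induction_on with
  | C a =>
    refine ⟨(b.repr a).mapRange C (map_zero _), ?_⟩
    rw [Finsupp.sum_mapRange_index (fun i => by rw [map_zero, smul_zero])]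
    conv_lhs => rw [← b.linearCombination_repr a]
    rw [Finsupp.linearCombination_apply, Finsupp.sum, map_sum, Finsupp.sum]
    refine Finset.sum_congr rfl fun i _ => ?_
    rw [MvPolynomial.map_C, smul_eq_C_mul, ← C_mul, Algebra.smul_def, mul_comm]
  | add f g hf hg =>
    obtain ⟨F, rfl⟩ := hf
    obtain ⟨G, rfl⟩ := hg
    refine ⟨F + G, ?_⟩
    rw [Finsupp.sum_add_index (fun i _ => by rw [map_zero, smul_zero])
      (fun i _ a a' => by rw [map_add, smul_add])]
  | mul_X f q hf =>
    obtain ⟨F, rfl⟩ := hf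
    refine ⟨F.mapRange (fun h => h * X q) (zero_mul _), ?_⟩
    rw [Finsupp.sum_mapRange_index (fun i => by rw [map_zero, smul_zero]), Finsupp.sum,
      Finset.sum_mul, Finsupp.sum]
    refine Finset.sum_congr rfl fun i _ => ?_
    rw [map_mul, MvPolynomial.map_X, smul_mul_assoc]

/-- The common zeros of the rational polynomials are the common zeros of all polynomials. -/
theorem zero_iff (G : Set (Matrix ι ι ℚ)) (g : Matrix ι ι L) :
    (∀ f ∈ Jet (mapQ L '' G), ev g f = 0) ↔
      ∀ f ∈ Jet G, MvPolynomial.aeval (fun p => g p.1 p.2) f = 0 := by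
  constructor
  · intro h f hf
    rw [← ev_map]
    refine h _ fun l hl => ?_
    obtain ⟨l', hl', rfl⟩ : ∃ l' : List (Matrix ι ι ℚ), (∀ y ∈ l', y ∈ G) ∧
        l = l'.map (mapQ L) := by
      clear h hf
      induction l with
      | nil => exact ⟨[], by simp, rfl⟩
      | cons y l ih =>
        obtain ⟨l', h1, h2⟩ := ih fun z hz => hl z (List.mem_cons_of_mem _ hz)
        obtain ⟨y', hy', h3⟩ := hl y (List.mem_cons_self ..)
        refine ⟨y' :: l', ?_, by rw [List.map_cons, h2, h3]⟩
        intro z hz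
        rcases List.mem_cons.1 hz with h | h
        · rw [h]
          exact hy'
        · exact h1 z h
    rw [dl_map, ev_one_map, hf l' hl', map_zero]
  · intro h f hf
    let b := Module.Free.chooseBasis ℚ L
    obtain ⟨F, rfl⟩ := exists_expand L b f
    have h1 : ∀ i, F i ∈ Jet G := by
      intro i l hl
      have h2 := hf (l.map (mapQ L)) (by
        intro y hy
        obtain ⟨y', hy', rfl⟩ := List.mem_map.1 hy
        exact ⟨y', hl y' hy', rfl⟩)
      rw [Finsupp.sum, map_sum, map_sum] at h2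
      have h3 : ∀ j, ev (1 : Matrix ι ι L) (dl (l.map (mapQ L))
          (b j • MvPolynomial.map (algebraMap ℚ L) (F j))) =
          ev (1 : Matrix ι ι ℚ) (dl l (F j)) • b j := by
        intro j
        rw [map_smul, map_smul, dl_map, ev_one_map, smul_eq_mul, Algebra.smul_def, mul_comm]
      rw [Finset.sum_congr rfl fun j _ => h3 j] at h2
      have h4 := linearIndependent_iff'.1 b.linearIndependent F.support _ h2
      by_cases hi : i ∈ F.support
      · exact h4 i hi
      · rw [Finsupp.notMem_support_iff.1 hi, map_zero, map_zero]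
    rw [Finsupp.sum, map_sum]
    refine Finset.sum_eq_zero fun i _ => ?_
    rw [map_smul, ev_map, h _ (h1 i), smul_zero]

end pol

end

end Pool.Agent.P8H28.QF
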