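import Pool.Agent.P8H28.QF.Ten
import Pool.Agent.W528.ZC.Lie

/-!
# Alternating tensors and extremal vectors
-/

set_option linter.unusedSectionVars false

namespace Pool.Agent.P8H28.QF

open Module Pool.Agent.P8H28.SQ
open Pool.Agent.W528.ZC (toM toM_mul toM_one)

noncomputable section

variable {K : Type} [Field K] {ι : Type} [Fintype ι] [DecidableEq ι] {m : ℕ}

/-- The sign as an element of the field. -/
def sg (K : Type) [Field K] (σ : Equiv.Perm (Fin m)) : K := ((Equiv.Perm.sign σ : ℤ) : K)

theorem sg_mul (σ τ : Equiv.Perm (Fin m)) : sg K (σ * τ) = sg K σ * sg K τ := by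
  unfold sg
  rw [Equiv.Perm.sign_mul, Units.val_mul, Int.cast_mul]

theorem sg_sq (σ : Equiv.Perm (Fin m)) : sg K σ * sg K σ = 1 := by
  unfold sg
  rw [← Int.cast_mul, ← Units.val_mul, Int.units_mul_self, Units.val_one, Int.cast_one]

/-- The permutation of the indices of a tensor. -/
def pm (K ι : Type) [Field K] (σ : Equiv.Perm (Fin m)) : Module.End K ((Fin m → ι) → K) where
  toFun u a := u (a ∘ σ)
  map_add' _ _ := rfl
  map_smul' _ _ := rfl

theorem pm_apply (σ : Equiv.Perm (Fin m)) (u : (Fin m → ι) → K) (a : Fin m → ι) :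
    pm K ι σ u a = u (a ∘ σ) := rfl

/-- The alternating tensors. -/
def AT (m : ℕ) (K ι : Type) [Field K] : Submodule K ((Fin m → ι) → K) where
  carrier := {u | ∀ σ, pm K ι σ u = sg K σ • u}
  zero_mem' σ := by rw [map_zero, smul_zero]
  add_mem' hu hv σ := by rw [map_add, hu, hv, smul_add]
  smul_mem' c u hu σ := by rw [map_smul, hu, smul_comm]

/-- The projection to the alternating tensors. -/
def anti (m : ℕ) (K ι : Type) [Field K] : Module.End K ((Fin m → ι) → K) :=
  (m.factorial : K)⁻¹ • ∑ σ : Equiv.Perm (Fin m), sg K σ • pm K ι σ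

theorem pm_mul (σ τ : Equiv.Perm (Fin m)) : pm K ι σ * pm K ι τ = pm K ι (σ * τ) := rfl

theorem anti_pm (σ : Equiv.Perm (Fin m)) : anti m K ι * pm K ι σ = sg K σ • anti m K ι := by
  unfold anti
  rw [smul_mul_assoc, Finset.sum_mul, smul_comm, Finset.smul_sum (r := sg K σ)]
  congr 1
  refine Fintype.sum_equiv (Equiv.mulRight σ) _ _ fun τ => ?_
  rw [smul_mul_assoc, pm_mul, Equiv.coe_mulRight, sg_mul, ← mul_smul, mul_comm (sg K τ),
    ← mul_assoc, sg_sq, one_mul]

theorem pm_anti (σ : Equiv.Perm (Fin m)) : pm K ι σ * anti m K ι = sg K σ • anti m K ι := by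
  unfold anti
  rw [mul_smul_comm, Finset.mul_sum, smul_comm, Finset.smul_sum (r := sg K σ)]
  congr 1
  refine Fintype.sum_equiv (Equiv.mulLeft σ) _ _ fun τ => ?_
  rw [mul_smul_comm, pm_mul, Equiv.coe_mulLeft, sg_mul, ← mul_smul,
    ← mul_assoc, sg_sq, one_mul]

theorem anti_mem (u : (Fin m → ι) → K) : anti m K ι u ∈ AT m K ι := by
  intro σ
  rw [← Module.End.mul_apply, pm_anti, LinearMap.smul_apply]

theorem anti_eq [CharZero K] {u : (Fin m → ι) → K} (hu : u ∈ AT m K ι) : anti m K ι u = u := by
  unfold anti
  rw [LinearMap.smul_apply, LinearMap.sum_apply]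
  have h1 : ∀ σ : Equiv.Perm (Fin m), (sg K σ • pm K ι σ) u = u := by
    intro σ
    rw [LinearMap.smul_apply, hu σ, ← mul_smul, sg_sq, one_smul]
  rw [Finset.sum_congr rfl fun σ _ => h1 σ, Finset.sum_const, Finset.card_univ,
    Fintype.card_perm, Fintype.card_fin, ← Nat.cast_smul_eq_nsmul K, ← mul_smul,
    inv_mul_cancel₀ (Nat.cast_ne_zero.2 m.factorial_ne_zero), one_smul]

theorem tens_pm (M : Matrix ι ι K) (σ : Equiv.Perm (Fin m)) :
    Matrix.toLin' (tens m M) * pm K ι σ = pm K ι σ * Matrix.toLin' (tens m M) := by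
  refine LinearMap.ext fun u => funext fun a => ?_
  rw [Module.End.mul_apply, Module.End.mul_apply, pm_apply, Matrix.toLin'_apply,
    Matrix.toLin'_apply, Matrix.mulVec, Matrix.mulVec, dotProduct, dotProduct]
  refine Fintype.sum_equiv (Equiv.arrowCongr σ.symm (Equiv.refl ι)) _ _ fun b => ?_
  rw [pm_apply, tens_apply, tens_apply]
  have h1 : (Equiv.arrowCongr σ.symm (Equiv.refl ι)) b = b ∘ σ := rfl
  rw [h1]
  congr 1
  exact (Equiv.prod_comp σ fun i => M (a i) (b i)).symm

theorem tens_anti (M : Matrix ι ι K) :
    Matrix.toLin' (tens m M) * anti m K ι = anti m K ι * Matrix.toLin' (tens m M) := by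
  unfold anti
  rw [mul_smul_comm, smul_mul_assoc, Finset.mul_sum, Finset.sum_mul]
  congr 1
  refine Finset.sum_congr rfl fun σ _ => ?_
  rw [mul_smul_comm, smul_mul_assoc, tens_pm]

theorem dk_pm (k : Fin m) (x : Matrix ι ι K) (σ : Equiv.Perm (Fin m)) :
    pm K ι σ * dk k x = dk (σ k) x * pm K ι σ := by
  refine LinearMap.ext fun u => funext fun a => ?_
  rw [Module.End.mul_apply, Module.End.mul_apply, pm_apply, dk_apply, dk_apply]
  refine Finset.sum_congr rfl fun j _ => ?_
  rw [pm_apply, Function.comp_apply]
  congr 2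
  funext i
  by_cases hi : i = k
  · subst hi
    rw [Function.update_self, Function.comp_apply, Function.update_self]
  · rw [Function.update_of_ne hi, Function.comp_apply, Function.comp_apply,
      Function.update_of_ne (fun h => hi (σ.injective h))]

theorem dt_pm (x : Matrix ι ι K) (σ : Equiv.Perm (Fin m)) :
    pm K ι σ * dt m x = dt m x * pm K ι σ := by
  rw [dt_eq, Finset.mul_sum, Finset.sum_mul]
  exact Fintype.sum_equiv σ _ _ fun k => dk_pm k x σ

theorem dt_AT (x : Matrix ι ι K) {u : (Fin m → ι) → K} (hu : u ∈ AT m K ι) :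
    dt m x u ∈ AT m K ι := by
  intro σ
  rw [← Module.End.mul_apply, dt_pm, Module.End.mul_apply, hu σ, map_smul]

/-- The alternating tensor of a family of vectors. -/
def altP : (ι → K) [⋀^Fin m]→ₗ[K] ((Fin m → ι) → K) := MultilinearMap.alternatization pt

theorem altP_apply (v : Fin m → ι → K) :
    altP v = ∑ σ : Equiv.Perm (Fin m), sg K σ • pt (v ∘ σ) := by
  unfold altP
  rw [MultilinearMap.alternatization_apply]
  refine Finset.sum_congr rfl fun σ _ => ?_
  rw [MultilinearMap.domDomCongr_apply]
  unfold sg
  rw [Units.smul_def, Int.cast_smul_eq_zsmul]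
  rfl

theorem dt_altP (x : Matrix ι ι K) (v : Fin m → ι → K) :
    dt m x (altP v) = ∑ k, altP (Function.update v k (x.mulVec (v k))) := by
  simp only [altP_apply, map_sum, map_smul, dt_pt]
  rw [Finset.sum_comm]
  refine Finset.sum_congr rfl fun σ _ => ?_
  rw [← Finset.smul_sum]
  congr 1
  refine Fintype.sum_equiv σ _ _ fun k => ?_
  congr 1
  funext i
  by_cases hi : i = k
  · subst hi
    rw [Function.update_self, Function.comp_apply, Function.comp_apply, Function.update_self]
  · rw [Function.update_of_ne hi, Function.comp_apply, Function.comp_apply,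
      Function.update_of_ne (fun h => hi (σ.injective h))]

/-- The value of a tensor on linear forms. -/
def prs (φ : Fin m → ι → K) (u : (Fin m → ι) → K) : K := ∑ a, u a * ∏ i, φ i (a i)

theorem prs_pt (φ v : Fin m → ι → K) : prs φ (pt v) = ∏ i, (φ i) ⬝ᵥ (v i) := by
  unfold prs
  simp only [dotProduct]
  rw [Finset.prod_univ_sum, Fintype.piFinset_univ]
  refine Finset.sum_congr rfl fun a _ => ?_
  rw [pt_apply, ← Finset.prod_mul_distrib]
  exact Finset.prod_congr rfl fun i _ => mul_comm _ _

theorem prs_sum {κ : Type} (φ : Fin m → ι → K) (s : Finset κ) (u : κ → (Fin m → ι) → K) :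
    prs φ (∑ i ∈ s, u i) = ∑ i ∈ s, prs φ (u i) := by
  unfold prs
  rw [Finset.sum_comm]
  refine Finset.sum_congr rfl fun a _ => ?_
  rw [Finset.sum_apply, Finset.sum_mul]

theorem prs_smul (φ : Fin m → ι → K) (c : K) (u : (Fin m → ι) → K) :
    prs φ (c • u) = c * prs φ u := by
  unfold prs
  rw [Finset.mul_sum]
  refine Finset.sum_congr rfl fun a _ => ?_
  rw [Pi.smul_apply, smul_eq_mul, mul_assoc]

theorem prs_altP (φ v : Fin m → ι → K) :
    prs φ (altP v) = (Matrix.of fun i j => (φ i) ⬝ᵥ (v j)).det := by
  rw [altP_apply, prs_sum, ← Matrix.det_transpose, Matrix.det_apply']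
  refine Finset.sum_congr rfl fun σ _ => ?_
  rw [prs_smul, prs_pt]
  rfl

/-- The derivations, as a function of the operators. -/
def DT (m : ℕ) (K ι : Type) [Field K] [Fintype ι] [DecidableEq ι] :
    Module.End K (ι → K) →ₗ[K] Module.End K ((Fin m → ι) → K) :=
  (dt m).comp (LinearMap.toMatrix' : Module.End K (ι → K) ≃ₗ[K] Matrix ι ι K).toLinearMap

theorem DT_apply (x : Module.End K (ι → K)) : DT m K ι x = dt m (toM x) := rfl

theorem DT_rep : IsRep (DT m K ι) := by
  intro x y
  rw [DT_apply, DT_apply, DT_apply, ← dt_br, ← toM_mul, ← toM_mul]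
  exact congrArg _ (map_sub _ _ _)

theorem toM_vec (x : Module.End K (ι → K)) (v : ι → K) : (toM x).mulVec v = x v := by
  rw [← Matrix.toLin'_apply, Matrix.toLin'_toMatrix']

/-- The alternating tensor of a basis of the image of an idempotent is extremal. -/
theorem exists_ext {p : Module.End K (ι → K)} (hp : p * p = p)
    (hr : finrank K (LinearMap.range p) = m) :
    ∃ u ∈ AT m K ι, Extremal (DT m K ι) p u := by
  let R := LinearMap.range p
  let b : Basis (Fin m) K R := finBasisOfFinrankEq K R hr
  let e : Fin m → ι → K := fun i => b i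
  have hpe : ∀ v ∈ R, p v = v := by
    rintro _ ⟨w, rfl⟩
    rw [← Module.End.mul_apply, hp]
  refine ⟨altP e, ?_, ?_, ?_, ?_⟩
  · intro σ
    rw [altP_apply, map_sum, Finset.smul_sum]
    refine Fintype.sum_equiv (Equiv.mulRight σ⁻¹) _ _ fun τ => ?_
    rw [map_smul, Equiv.coe_mulRight, sg_mul, ← mul_smul, mul_comm (sg K σ), mul_assoc,
      ← sg_mul σ⁻¹ σ, inv_mul_cancel]
    have h1 : sg K (1 : Equiv.Perm (Fin m)) = 1 := by
      unfold sg
      rw [Equiv.Perm.sign_one, Units.val_one, Int.cast_one]
    rw [h1, mul_one]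
    congr 1
    funext a
    rw [pm_apply, pt_apply, pt_apply]
    refine Fintype.prod_equiv σ _ _ fun i => ?_
    simp only [Function.comp_apply, Equiv.Perm.mul_apply]
    rw [show σ⁻¹ (σ i) = i from σ.symm_apply_apply i]
  · intro x _ hx
    rw [DT_apply, dt_altP]
    refine Finset.sum_eq_zero fun j _ => ?_
    have h1 : (toM x).mulVec (e j) = 0 := by
      have h2 : p (e j) = e j := hpe _ (b j).2
      rw [toM_vec, ← h2, ← Module.End.mul_apply, hx, LinearMap.zero_apply]
    rw [h1]
    exact altP.map_update_zero e j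
  · intro x hx
    have key : ∀ v : Fin m → ι → K, (∀ i, v i ∈ R) → ∃ c : K, altP v = c • altP e := by
      intro v hv
      have h1 : (altP (K := K) (ι := ι) (m := m)).compLinearMap R.subtype =
          (LinearMap.toSpanSingleton K _ (altP e)).compAlternatingMap b.det := by
        refine b.ext_alternating fun w hw => ?_
        have hw2 : Function.Bijective w := Finite.injective_iff_bijective.1 hw
        have h2 : (fun i => b (w i)) = b ∘ (Equiv.ofBijective w hw2) := rfl
        rw [h2, AlternatingMap.map_perm, AlternatingMap.map_perm,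
          AlternatingMap.compLinearMap_apply, LinearMap.compAlternatingMap_apply,
          Module.Basis.det_self, LinearMap.toSpanSingleton_apply, one_smul]
        rfl
      refine ⟨b.det fun i => ⟨v i, hv i⟩, ?_⟩
      have h2 := congrArg (fun f : R [⋀^Fin m]→ₗ[K] ((Fin m → ι) → K) =>
        f fun i => ⟨v i, hv i⟩) h1
      simp only [AlternatingMap.compLinearMap_apply, LinearMap.compAlternatingMap_apply,
        LinearMap.toSpanSingleton_apply] at h2
      exact h2
    have h1 : ∀ j, ∃ c : K, altP (Function.update e j ((toM x).mulVec (e j))) = c • altP e := by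
      intro j
      refine key _ fun i => ?_
      by_cases hij : i = j
      · rw [hij, Function.update_self]
        exact ⟨x (e j), by
          rw [← Module.End.mul_apply, hx, Module.End.mul_apply, hpe _ (b j).2, toM_vec]⟩
      · rw [Function.update_of_ne hij]
        exact (b i).2
    choose c hc using h1
    refine ⟨∑ j, c j, ?_⟩
    rw [DT_apply, dt_altP, Finset.sum_smul]
    exact Finset.sum_congr rfl fun j _ => hc j
  · intro x hx1 hx2 hx
    have h1 : ∀ j, x (e j) = 0 := by
      intro j0
      by_contra hne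
      have hk : ∀ j, p (x (e j)) = 0 := fun j => by
        rw [← Module.End.mul_apply, hx1, LinearMap.zero_apply]
      have hnR : x (e j0) ∉ R := fun h => hne (by rw [← hpe _ h, hk])
      obtain ⟨f, hf1, hf2⟩ := Submodule.exists_le_ker_of_notMem hnR
      -- the linear forms
      let F : Fin m → Module.Dual K (ι → K) := fun i =>
        if i = j0 then f else (b.coord i).comp (p.rangeRestrict)
      let φ : Fin m → ι → K := fun i a => F i (Pi.single a 1)
      have hφ : ∀ i v, φ i ⬝ᵥ v = F i v := by
        intro i v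
        conv_rhs => rw [pi_eq_sum_univ' v, map_sum]
        rw [dotProduct]
        refine Finset.sum_congr rfl fun a _ => ?_
        rw [map_smul, smul_eq_mul, mul_comm]
      have hFe : ∀ i j, i ≠ j0 → F i (e j) = if j = i then 1 else 0 := by
        intro i j hi
        have h2 : F i = (b.coord i).comp (p.rangeRestrict) := if_neg hi
        rw [h2, LinearMap.comp_apply]
        have h3 : p.rangeRestrict (e j) = b j := Subtype.ext (hpe _ (b j).2)
        rw [h3, Basis.coord_apply, Basis.repr_self, Finsupp.single_apply]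
      have hFx : ∀ i j, i ≠ j0 → F i (x (e j)) = 0 := by
        intro i j hi
        have h2 : F i = (b.coord i).comp (p.rangeRestrict) := if_neg hi
        rw [h2, LinearMap.comp_apply]
        have h3 : p.rangeRestrict (x (e j)) = 0 := Subtype.ext (hk j)
        rw [h3, map_zero]
      have hF0 : F j0 = f := if_pos rfl
      have hFR : ∀ j, F j0 (e j) = 0 := by
        intro j
        rw [hF0]
        exact hf2 (b j).2
      have h2 := congrArg (prs φ) hx
      rw [DT_apply, dt_altP, prs_sum, Finset.sum_eq_single j0] at h2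
      · rw [prs_altP] at h2
        have h3 : (Matrix.of fun i j => φ i ⬝ᵥ Function.update e j0 ((toM x).mulVec (e j0)) j) =
            Matrix.diagonal fun i => if i = j0 then f (x (e j0)) else 1 := by
          ext i j
          rw [Matrix.of_apply, hφ, Matrix.diagonal_apply]
          by_cases hj : j = j0
          · subst hj
            rw [Function.update_self, toM_vec]
            by_cases hi : i = j
            · subst hi
              rw [if_pos rfl, if_pos rfl, hF0]
            · rw [if_neg hi, hFx i j hi]
          · rw [Function.update_of_ne hj]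
            by_cases hi : i = j0
            · subst hi
              rw [hFR, if_neg (Ne.symm hj)]
            · rw [hFe i j hi]
              by_cases hij : i = j
              · rw [if_pos hij.symm, if_pos hij, if_neg hi]
              · rw [if_neg (Ne.symm hij), if_neg hij]
        rw [h3, Matrix.det_diagonal, Finset.prod_ite_eq' Finset.univ j0, if_pos (Finset.mem_univ _)]
          at h2
        have h4 : prs φ (0 : (Fin m → ι) → K) = 0 := by
          unfold prs
          exact Finset.sum_eq_zero fun a _ => by rw [Pi.zero_apply, zero_mul]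
        rw [h4] at h2
        exact hf1 h2
      · intro k _ hk0
        rw [prs_altP]
        refine Matrix.det_eq_zero_of_column_eq_zero j0 fun i => ?_
        rw [Matrix.of_apply, hφ, Function.update_of_ne (Ne.symm hk0)]
        by_cases hi : i = j0
        · subst hi
          exact hFR i
        · rw [hFe i j0 hi, if_neg (Ne.symm hi)]
      · intro h
        exact absurd (Finset.mem_univ _) h
    refine LinearMap.ext fun v => ?_
    rw [← hx2, Module.End.mul_apply, LinearMap.zero_apply]
    have h2 : p v = ∑ i, b.repr ⟨p v, v, rfl⟩ i • e i := by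
      have h3 := (b.sum_repr ⟨p v, v, rfl⟩).symm
      have h4 := congrArg (fun x : R => (x : ι → K)) h3
      simp only [Submodule.coe_sum, Submodule.coe_smul] at h4
      exact h4
    rw [h2, map_sum]
    refine Finset.sum_eq_zero fun i _ => ?_
    rw [map_smul, h1, smul_zero]

end

end Pool.Agent.P8H28.QF
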