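import Mathlib
import Pool.Agent.W528.ZC.FinDefs
import Pool.Agent.W528.ZC.FinDefs2

/-!
# Definitions: the middle exterior power and the centre
-/

namespace Pool.Agent.P8H28.QF

open Pool.Agent.W528.ZC MvPolynomial

variable {ι : Type} [Fintype ι] [DecidableEq ι]

/-- The matrix of the action of the matrix `M` on the tensors with `m` indices. -/
def tens (m : ℕ) {k : Type} [Field k] (M : Matrix ι ι k) : Matrix (Fin m → ι) (Fin m → ι) k :=
  Matrix.of fun a b => ∏ i, M (a i) (b i)

omit [Fintype ι] [DecidableEq ι] in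
theorem tens_apply (m : ℕ) {k : Type} [Field k] (M : Matrix ι ι k) (a b : Fin m → ι) :
    tens m M a b = ∏ i, M (a i) (b i) := rfl

theorem tens_one (m : ℕ) {k : Type} [Field k] : tens m (1 : Matrix ι ι k) = 1 := by
  ext a b
  rw [tens_apply]
  by_cases h : a = b
  · subst h
    rw [Matrix.one_apply_eq]
    exact Finset.prod_eq_one fun i _ => Matrix.one_apply_eq _
  · rw [Matrix.one_apply_ne h]
    obtain ⟨i, hi⟩ := Function.ne_iff.1 h
    exact Finset.prod_eq_zero (Finset.mem_univ i) (Matrix.one_apply_ne hi)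

theorem tens_mul (m : ℕ) {k : Type} [Field k] (M N : Matrix ι ι k) :
    tens m (M * N) = tens m M * tens m N := by
  ext a b
  rw [tens_apply, Matrix.mul_apply]
  simp only [Matrix.mul_apply, tens_apply, ← Finset.prod_mul_distrib]
  rw [Finset.prod_univ_sum]
  simp only [Fintype.piFinset_univ]

/-- The `m`-th tensor power of a representation. -/
def tensRep (m : ℕ) {k : Type} [Field k] {Γ : Type} [Group Γ] (ρ : Γ →* Matrix ι ι k) :
    Γ →* Matrix (Fin m → ι) (Fin m → ι) k where
  toFun s := tens m (ρ s)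
  map_one' := by rw [map_one, tens_one]
  map_mul' s t := by rw [map_mul, tens_mul]

/-- The alternating matrices: the endomorphisms of the `m`-th exterior power of the space of
vectors with coordinates in `ι`. -/
def Alternating {m : ℕ} {k : Type} [Field k] (M : Matrix (Fin m → ι) (Fin m → ι) k) : Prop :=
  ∀ (σ : Equiv.Perm (Fin m)) (a b : Fin m → ι),
    M (a ∘ σ) b = (Equiv.Perm.sign σ : ℤ) * M a b ∧ M a (b ∘ σ) = (Equiv.Perm.sign σ : ℤ) * M a b

/-- The matrix `M` commutes with the image of a subgroup of finite index. -/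
def VirtuallyCommutes {k : Type} [Field k] {κ : Type} [Fintype κ] [DecidableEq κ] {Γ : Type}
    [Group Γ] (ρ : Γ →* Matrix κ κ k) {Ω : Type} [Field Ω] [Algebra k Ω] (M : Matrix κ κ Ω) :
    Prop :=
  ∃ Δ : Subgroup Γ, Δ.FiniteIndex ∧
    ∀ s ∈ Δ, M * (ρ s).map (algebraMap k Ω) = (ρ s).map (algebraMap k Ω) * M

/-- The matrix `x` is in the Lie algebra of the identity component of the Zariski closure of the
image of `ρ` (the tangent space at `1`). -/
def InLie {k : Type} [Field k] {Γ : Type} [Group Γ] (ρ : Γ →* Matrix ι ι k) {Ω : Type} [Field Ω]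
    [Algebra k Ω] (x : Matrix ι ι Ω) : Prop :=
  ∀ f : MvPolynomial (ι × ι) Ω, Vanishes ρ f → ∑ p : ι × ι, x p.1 p.2 * val 1 (pderiv p f) = 0

/-- The rational alternating matrices in `𝔻` form a `ℚ`-form of the space of the endomorphisms of
the `m`-th exterior power over `k` that commute with a subgroup of finite index. -/
def IsFormOfMiddle {k : Type} [Field k] [Algebra ℚ k] {Γ : Type} [Group Γ] (m : ℕ)
    (ρ : Γ →* Matrix ι ι k) (𝔻 : Set (Matrix (Fin m → ι) (Fin m → ι) ℚ)) : Prop :=
  ∀ M : Matrix (Fin m → ι) (Fin m → ι) k,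
    Alternating M ∧ VirtuallyCommutes (tensRep m ρ) M ↔ M ∈ Submodule.span k (mapQ k '' 𝔻)

/-- `C` is a `ℚ`-form of the centre of the Lie algebra of the identity component of the Zariski
closure (over `Ω`, an algebraic closure of `k = ℚ_ℓ`). -/
def IsFormOfCentre {k : Type} [Field k] (Ω : Type) [Field Ω] [Algebra k Ω] [Algebra ℚ Ω]
    {Γ : Type} [Group Γ] (ρ : Γ →* Matrix ι ι k) (C : Set (Matrix ι ι ℚ)) : Prop :=
  ∀ x : Matrix ι ι Ω, InLie ρ x ∧ VirtuallyCommutes ρ x ↔ x ∈ Submodule.span Ω (mapQ Ω '' C)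

/-- The centre of the algebra spanned by `E` consists of elements that are self-adjoint for `ψ`. -/
def SelfAdjointCentre (ψ : Matrix ι ι ℚ) (E : Set (Matrix ι ι ℚ)) : Prop :=
  ∀ z ∈ Submodule.span ℚ E, (∀ e ∈ E, e * z = z * e) → z.transpose * ψ = ψ * z

end Pool.Agent.P8H28.QF
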