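import Pool.Agent.P8H28.QF.Rat
import Pool.Agent.W528.ZC.Fin
import Pool.Agent.W528.ZC.Eqs

/-!
# The theorem for one prime
-/

set_option linter.unusedSectionVars false
set_option linter.deprecated false

namespace Pool.Agent.P8H28.QF

open Module MvPolynomial Pool.Agent.P8H28.SQ
open Pool.Agent.W528.ZC
open Pool.Agent.H204R3.GP (HasProj)

noncomputable section

section lie

variable {K : Type} [Field K] {ι : Type} [Fintype ι] [DecidableEq ι]

theorem ev_D_one (x : Matrix ι ι K) (f : MvPolynomial (ι × ι) K) :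
    ev 1 (D x f) = ∑ p : ι × ι, x p.1 p.2 * ev 1 (pderiv p f) := by
  have h : D x f = ∑ p : ι × ι, D x (X p) * pderiv p f := by
    induction f using MvPolynomial.induction_on with
    | C a =>
      rw [← algebraMap_eq, (D x).map_algebraMap]
      refine (Finset.sum_eq_zero fun p _ => ?_).symm
      rw [(pderiv p).map_algebraMap, mul_zero]
    | add f g hf hg =>
      rw [map_add, hf, hg, ← Finset.sum_add_distrib]
      exact Finset.sum_congr rfl fun p _ => by rw [map_add, mul_add]
    | mul_X f q hf =>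
      rw [Derivation.leibniz, hf, smul_eq_mul, smul_eq_mul]
      have h1 : ∀ p, D x (X p) * pderiv p (f * X q) =
          (if p = q then f * D x (X p) else 0) + X q * (D x (X p) * pderiv p f) := by
        intro p
        rw [Derivation.leibniz, smul_eq_mul, smul_eq_mul]
        by_cases hp : p = q
        · subst hp
          rw [if_pos rfl, pderiv_X_self]
          ring
        · rw [if_neg hp, pderiv_X_of_ne (Ne.symm hp)]
          ring
      rw [Finset.sum_congr rfl fun p _ => h1 p, Finset.sum_add_distrib,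
        Finset.sum_ite_eq' Finset.univ q, if_pos (Finset.mem_univ _), Finset.mul_sum]
  rw [h, map_sum]
  refine Finset.sum_congr rfl fun p _ => ?_
  rw [map_mul, ev_D_X, one_mul]

theorem sub_D (a x : Matrix ι ι K) (f : MvPolynomial (ι × ι) K) :
    sub a 1 (D x f) = D x (sub a 1 f) := by
  have hX : ∀ i j, sub a 1 (X (i, j)) = ∑ l, C (a i l) * X (l, j) := by
    intro i j
    rw [sub_X]
    refine Finset.sum_congr rfl fun l _ => ?_
    rw [Finset.sum_eq_single j]
    · rw [Matrix.one_apply_eq, mul_one]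
    · intro q _ hq
      rw [Matrix.one_apply_ne hq, mul_zero, C_0, zero_mul]
    · intro h
      exact absurd (Finset.mem_univ _) h
  have hDC : ∀ c, D x (C c) = 0 := fun c => by
    rw [← algebraMap_eq]
    exact (D x).map_algebraMap c
  induction f using MvPolynomial.induction_on with
  | C c =>
    have h2 : sub a 1 (C c) = C c := by rw [← algebraMap_eq, AlgHom.commutes]
    rw [hDC, h2, hDC, map_zero]
  | add f g hf hg => rw [map_add, map_add, hf, hg, map_add, map_add]
  | mul_X f q hf =>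
    obtain ⟨i, j⟩ := q
    rw [Derivation.leibniz, map_add, smul_eq_mul, smul_eq_mul, map_mul, map_mul, hf, map_mul,
      Derivation.leibniz, smul_eq_mul, smul_eq_mul]
    congr 2
    rw [D_X, hX, map_sum, map_sum]
    have h1 : ∀ q, sub a 1 (C (x q j) * X (i, q)) = ∑ l, C (x q j) * (C (a i l) * X (l, q)) := by
      intro q
      rw [map_mul, hX, ← algebraMap_eq, AlgHom.commutes, Finset.mul_sum]
    have h2 : ∀ l, D x (C (a i l) * X (l, j)) = ∑ q, C (x q j) * (C (a i l) * X (l, q)) := by
      intro l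
      rw [← smul_eq_C_mul, Derivation.map_smul, D_X, Finset.smul_sum]
      refine Finset.sum_congr rfl fun q _ => ?_
      rw [smul_eq_C_mul]
      ring
    rw [Finset.sum_congr rfl fun q _ => h1 q, Finset.sum_congr rfl fun l _ => h2 l,
      Finset.sum_comm]

variable {Γ : Type} [Group Γ] {R : Representation K Γ (ι → K)}

theorem Lg_iff {y : Module.End K (ι → K)} :
    y ∈ Lg R ↔ ∀ f ∈ I0 R, ev 1 (D (toM y) f) = 0 := by
  constructor
  · intro hy f hf
    obtain ⟨Δ, hΔ, h⟩ := hy f hf
    have h2 := h 1 Δ.one_mem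
    rwa [map_one, toM_one] at h2
  · rintro h f ⟨Δ, hΔ, hf⟩
    refine ⟨Δ, hΔ, fun g hg => ?_⟩
    have h1 : sub (toM (R g)) 1 f ∈ I0 R := by
      refine ⟨Δ, hΔ, fun g' hg' => ?_⟩
      rw [ev_sub, mul_one, ← toM_mul, ← map_mul]
      exact hf _ (Δ.mul_mem hg hg')
    have h2 := h _ h1
    rw [← sub_D, ev_sub, mul_one, mul_one] at h2
    exact h2

end lie

variable {k : Type} [Field k] [CharZero k] {ι : Type} [Fintype ι] [DecidableEq ι] {Γ : Type}
  [Group Γ] {Ω : Type} [Field Ω] [Algebra k Ω] {m : ℕ}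

theorem inLie_iff (ρ : Γ →* Matrix ι ι k) (x : Matrix ι ι Ω) :
    InLie ρ x ↔ Matrix.toLin' x ∈ Lg (repM ρ Ω) := by
  rw [Lg_iff]
  unfold InLie
  simp only [vanishes_iff, val_eq_ev, toM_toLin, ev_D_one]

theorem tens_map (M : Matrix ι ι k) :
    tens m (M.map (algebraMap k Ω)) = (tens m M).map (algebraMap k Ω) := by
  ext a b
  rw [tens_apply, Matrix.map_apply, tens_apply, map_prod]
  rfl

theorem toM_tens (ρ : Γ →* Matrix ι ι k) (s : Γ) :
    tens m (toM (repM ρ Ω s)) = (tensRep m ρ s).map (algebraMap k Ω) := by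
  rw [toM_repM, tens_map]
  rfl

theorem virt_iff (ρ : Γ →* Matrix ι ι k) (x : Matrix ι ι Ω) :
    VirtuallyCommutes ρ x ↔ CR (repM ρ Ω) (Matrix.toLin' x) := by
  unfold VirtuallyCommutes CR
  refine exists_congr fun Δ => and_congr Iff.rfl (forall_congr' fun s => forall_congr' fun _ => ?_)
  rw [repM_apply]
  constructor
  · intro h
    have h1 := congrArg Matrix.toLin' h
    rwa [Matrix.toLin'_mul, Matrix.toLin'_mul] at h1
  · intro h
    have h1 := congrArg toM h
    rwa [toM_mul, toM_mul, toM_toLin, toM_toLin] at h1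

theorem hasProjT [Algebra.IsAlgebraic k Ω] {ρ : Γ →* Matrix ι ι k} (h : SemiM (tensRep m ρ)) :
    HasProjT m (repM ρ Ω) := by
  have h1 := hasProj_repM (Ω := Ω) (tensRep m ρ) h
  intro Δ hΔ U hU
  have h2 : ∀ s v, repM (tensRep m ρ) Ω s v = (tens m (toM (repM ρ Ω s))).mulVec v := by
    intro s v
    rw [repM_apply, Matrix.toLin'_apply, toM_tens]
  obtain ⟨Q, hQ1, hQ2, hQ3⟩ := h1 Δ hΔ U fun s hs u hu => by rw [h2]; exact hU s hs u hu
  exact ⟨Q, hQ1, hQ2, fun s hs v => by rw [← h2, ← h2]; exact hQ3 s hs v⟩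

/-- An alternating matrix over the extension field that commutes with the tensor power is a
combination of alternating matrices over `k` that commute with it. -/
theorem comm_ext_alt {κ : Type} [Fintype κ] [DecidableEq κ] (S : Set (Matrix (Fin m → κ)
    (Fin m → κ) k)) (P : Matrix (Fin m → κ) (Fin m → κ) Ω) (hP : Alternating P)
    (hS : ∀ M ∈ S, P * M.map (algebraMap k Ω) = M.map (algebraMap k Ω) * P) :
    P ∈ Submodule.span Ω {Q : Matrix (Fin m → κ) (Fin m → κ) Ω |
      ∃ N : Matrix (Fin m → κ) (Fin m → κ) k, (Alternating N ∧ ∀ M ∈ S, N * M = M * N) ∧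
        Q = N.map (algebraMap k Ω)} := by
  refine Submodule.span_mono ?_ (mem_span_crd (k := k) P)
  rintro _ ⟨φ, rfl⟩
  refine ⟨crd φ P, ⟨fun σ a b => ?_, fun M hM => ?_⟩, rfl⟩
  · have h1 := hP σ a b
    have h2 : ∀ x : Ω, φ (((Equiv.Perm.sign σ : ℤ) : Ω) * x) =
        ((Equiv.Perm.sign σ : ℤ) : k) * φ x := by
      intro x
      rw [← lin_smul, map_intCast]
    rw [crd_apply, crd_apply, crd_apply, h1.1, h1.2, h2]
    exact ⟨rfl, rfl⟩
  · have h1 := congrArg (crd φ) (hS M hM)
    rwa [crd_mul_right, crd_mul_left] at h1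

end

end Pool.Agent.P8H28.QF
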