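import Pool.Agent.P8H28.QF.Fin2

/-!
# The theorem for all primes
-/

set_option linter.unusedSectionVars false
set_option linter.deprecated false

namespace Pool.Agent.P8H28.QF

open Pool.Agent.W528.ZC

noncomputable section

theorem form_all {ι : Type} [Fintype ι] [DecidableEq ι] {m : ℕ}
    (hm : Fintype.card ι = 2 * m) {ψ : Matrix ι ι ℚ} (hψ : IsUnit ψ.det)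
    {E : Set (Matrix ι ι ℚ)} {Γ : Type} [Group Γ]
    {ρ : ∀ (ℓ : ℕ) [Fact ℓ.Prime], Γ →* Matrix ι ι ℚ_[ℓ]}
    {χ : ∀ (ℓ : ℕ) [Fact ℓ.Prime], Γ →* ℚ_[ℓ]} {ℓ₀ : ℕ}
    (hk : ∀ (ℓ : ℕ) [Fact ℓ.Prime], ℓ₀ ≤ ℓ →
      Known (AlgebraicClosure ℚ_[ℓ]) (ρ ℓ) (χ ℓ) (mapQ ℚ_[ℓ] ψ) (mapQ ℚ_[ℓ] '' E))
    (hom : ∀ (ℓ : ℕ) [Fact ℓ.Prime], ℓ₀ ≤ ℓ → ∀ c : AlgebraicClosure ℚ_[ℓ], c ≠ 0 →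
      InIdentityComponent (ρ ℓ) (c • (1 : Matrix ι ι (AlgebraicClosure ℚ_[ℓ]))))
    (hss : ∀ (ℓ : ℕ) [Fact ℓ.Prime], ℓ₀ ≤ ℓ → SemiM (tensRep m (ρ ℓ)))
    (hC : SelfAdjointCentre ψ E ∨ ∃ C : Set (Matrix ι ι ℚ), ∀ (ℓ : ℕ) [Fact ℓ.Prime], ℓ₀ ≤ ℓ →
      IsFormOfCentre (AlgebraicClosure ℚ_[ℓ]) (ρ ℓ) C)
    (hD : ∃ 𝔻 : Set (Matrix (Fin m → ι) (Fin m → ι) ℚ), ∀ (ℓ : ℕ) [Fact ℓ.Prime], ℓ₀ ≤ ℓ →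
      IsFormOfMiddle m (ρ ℓ) 𝔻) :
    ∃ S : Set (MvPolynomial (ι × ι) ℚ), ∀ (ℓ : ℕ) [Fact ℓ.Prime], ℓ₀ ≤ ℓ →
      ∀ Γ' : Subgroup Γ, Γ'.FiniteIndex → ∀ g : Matrix ι ι (AlgebraicClosure ℚ_[ℓ]),
        (InIdentityComponent ((ρ ℓ).comp Γ'.subtype) g ↔ IsZeroOf S g) := by
  obtain ⟨𝔻, hD⟩ := hD
  obtain ⟨C, hC⟩ : ∃ C : Set (Matrix ι ι ℚ), ∀ (ℓ : ℕ) [Fact ℓ.Prime], ℓ₀ ≤ ℓ →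
      IsFormOfCentre (AlgebraicClosure ℚ_[ℓ]) (ρ ℓ) C := by
    rcases hC with h | h
    · exact ⟨{1}, fun ℓ _ hℓ => centre_sa hψ (hk ℓ hℓ) (hom ℓ hℓ) (hD ℓ hℓ) h⟩
    · exact h
  refine ⟨((Jet (gQ m ψ E C 𝔻) : Submodule ℚ _) : Set _), fun ℓ _ hℓ Γ' hΓ' g => ?_⟩
  rw [inIC_sub (ρ ℓ) Γ' hΓ' g]
  exact form_one hm hψ (hk ℓ hℓ) (hom ℓ hℓ) (hss ℓ hℓ) (hC ℓ hℓ) (hD ℓ hℓ) g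

end

end Pool.Agent.P8H28.QF
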