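import Pool.Agent.P8H28.QF.Liea

/-!
# The ideal of the identity component and its Lie algebra
-/

set_option linter.unusedSectionVars false

namespace Pool.Agent.P8H28.QF

open Module MvPolynomial Pool.Agent.P8H28.SQ
open Pool.Agent.W528.ZC (toM toM_mul toM_one ev ev_X ev_C D D_X D_add D_smul ev_D_X ev_D_mul
  ev_D_C I0 mem_I0 InZ Lg WHodge PinkGen sub ev_sub sub_X mapQ)

noncomputable section

variable {K : Type} [Field K] {ι : Type} [Fintype ι] [DecidableEq ι]

/-- The composition of derivations. -/
def dl : List (Matrix ι ι K) → Module.End K (MvPolynomial (ι × ι) K)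
  | [] => 1
  | y :: l => DE y * dl l

theorem dl_nil (f : MvPolynomial (ι × ι) K) : dl [] f = f := rfl

theorem dl_cons (y : Matrix ι ι K) (l : List (Matrix ι ι K)) (f : MvPolynomial (ι × ι) K) :
    dl (y :: l) f = D y (dl l f) := rfl

theorem dl_snoc (l : List (Matrix ι ι K)) (y : Matrix ι ι K) (f : MvPolynomial (ι × ι) K) :
    dl (l ++ [y]) f = dl l (D y f) := by
  induction l with
  | nil => rfl
  | cons z l ih => rw [List.cons_append, dl_cons, dl_cons, ih]

/-- The polynomials all of whose derivatives along `G` vanish at `1`. -/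
def Jet (G : Set (Matrix ι ι K)) : Submodule K (MvPolynomial (ι × ι) K) where
  carrier := {f | ∀ l : List (Matrix ι ι K), (∀ y ∈ l, y ∈ G) → ev 1 (dl l f) = 0}
  zero_mem' l _ := by rw [map_zero, map_zero]
  add_mem' hf hg l hl := by rw [map_add, map_add, hf l hl, hg l hl, add_zero]
  smul_mem' c f hf l hl := by rw [map_smul, map_smul, hf l hl, smul_zero]

theorem Jet_one {G : Set (Matrix ι ι K)} {f : MvPolynomial (ι × ι) K} (hf : f ∈ Jet G) :
    ev 1 f = 0 := hf [] (by simp)

theorem Jet_D {G : Set (Matrix ι ι K)} {f : MvPolynomial (ι × ι) K} (hf : f ∈ Jet G)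
    {y : Matrix ι ι K} (hy : y ∈ G) : D y f ∈ Jet G := by
  intro l hl
  rw [← dl_snoc]
  refine hf _ fun z hz => ?_
  rcases List.mem_append.1 hz with h | h
  · exact hl z h
  · rw [List.mem_singleton.1 h]
    exact hy

theorem Jet_D_span {G : Set (Matrix ι ι K)} {y : Matrix ι ι K} (hy : y ∈ Submodule.span K G) :
    ∀ f ∈ Jet G, D y f ∈ Jet G := by
  induction hy using Submodule.span_induction with
  | mem y hy => exact fun f hf => Jet_D hf hy
  | zero =>
    intro f _
    have h1 := D_smul (0 : K) (1 : Matrix ι ι K) f
    rw [zero_smul, zero_smul] at h1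
    rw [h1]
    exact Submodule.zero_mem _
  | add a b _ _ ha hb =>
    intro f hf
    rw [D_add]
    exact Submodule.add_mem _ (ha f hf) (hb f hf)
  | smul c a _ ha =>
    intro f hf
    rw [D_smul]
    exact Submodule.smul_mem _ _ (ha f hf)

theorem Jet_span (G : Set (Matrix ι ι K)) : Jet ((Submodule.span K G : Submodule K _) : Set _) =
    Jet G := by
  refine le_antisymm (fun f hf l hl => hf l fun y hy => Submodule.subset_span (hl y hy)) ?_
  intro f hf l hl
  have h1 : dl l f ∈ Jet G := by
    induction l with
    | nil => exact hf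
    | cons y l ih =>
      rw [dl_cons]
      exact Jet_D_span (hl y (List.mem_cons_self ..)) _
        (ih fun z hz => hl z (List.mem_cons_of_mem _ hz))
  exact Jet_one h1

/-- The subspaces of polynomials stable under the derivation of an idempotent are stable under the
one-parameter group. -/
theorem top_sub [CharZero K] {p : Matrix ι ι K} (hp : p * p = p) {c : K} {φ : K → K}
    (hφ : ∀ r : ℕ, φ r = c ^ r) :
    ⨆ μ, repS φ (DE p) (sub 1 (1 - p + c • p)).toLinearMap μ = ⊤ := by
  let W : ℕ → Submodule K (MvPolynomial (ι × ι) K) := fun r =>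
    { carrier := {f | D p f = (r : K) • f ∧ sub 1 (1 - p + c • p) f = c ^ r • f}
      zero_mem' := ⟨by rw [map_zero, smul_zero], by rw [map_zero, smul_zero]⟩
      add_mem' := fun ha hb => ⟨by rw [map_add, ha.1, hb.1, smul_add],
        by rw [map_add, ha.2, hb.2, smul_add]⟩
      smul_mem' := fun a f ha => ⟨by rw [Derivation.map_smul, ha.1, smul_comm],
        by rw [map_smul, ha.2, smul_comm]⟩ }
  have hW : ∀ f, f ∈ ⨆ r, W r := by
    have hmul : ∀ a ∈ ⨆ r, W r, ∀ b ∈ ⨆ r, W r, a * b ∈ ⨆ r, W r := by
      intro a ha b hb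
      induction ha using Submodule.iSup_induction' with
      | mem r a ha =>
        induction hb using Submodule.iSup_induction' with
        | mem s b hb =>
          refine Submodule.mem_iSup_of_mem (r + s) ⟨?_, ?_⟩
          · rw [Derivation.leibniz, ha.1, hb.1, Nat.cast_add]
            simp only [smul_eq_mul, smul_eq_C_mul, C_add]
            ring
          · rw [map_mul, ha.2, hb.2, pow_add, smul_mul_smul_comm]
        | zero => rw [mul_zero]; exact Submodule.zero_mem _
        | add x y _ _ hx hy => rw [mul_add]; exact Submodule.add_mem _ hx hy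
      | zero => rw [zero_mul]; exact Submodule.zero_mem _
      | add x y _ _ hx hy => rw [add_mul]; exact Submodule.add_mem _ hx hy
    have hsub : ∀ (i : ι) (v : ι → K), sub 1 (1 - p + c • p) (row i v) =
        row i ((1 - p + c • p).mulVec v) := by
      intro i v
      rw [row_apply, row_apply, map_sum]
      have h1 : ∀ q, sub 1 (1 - p + c • p) (C (v q) * X (i, q)) =
          ∑ j, C ((1 - p + c • p) j q * v q) * X (i, j) := by
        intro q
        rw [map_mul, sub_X, ← algebraMap_eq, AlgHom.commutes, algebraMap_eq,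
          Finset.sum_eq_single i, Finset.mul_sum]
        · refine Finset.sum_congr rfl fun j _ => ?_
          rw [Matrix.one_apply_eq, one_mul, ← mul_assoc, ← C_mul, mul_comm (v q)]
        · intro k _ hk
          refine Finset.sum_eq_zero fun j _ => ?_
          rw [Matrix.one_apply_ne (Ne.symm hk), zero_mul, C_0, zero_mul]
        · intro h
          exact absurd (Finset.mem_univ _) h
      rw [Finset.sum_congr rfl fun q _ => h1 q, Finset.sum_comm]
      refine Finset.sum_congr rfl fun j _ => ?_
      rw [← Finset.sum_mul, Matrix.mulVec, dotProduct, map_sum]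
    intro f
    induction f using MvPolynomial.induction_on with
    | C a =>
      refine Submodule.mem_iSup_of_mem 0 ⟨?_, ?_⟩
      · rw [Nat.cast_zero, zero_smul, ← algebraMap_eq]
        exact (D p).map_algebraMap a
      · rw [pow_zero, one_smul, ← algebraMap_eq, AlgHom.commutes]
    | add f g hf hg => exact Submodule.add_mem _ hf hg
    | mul_X f q hf =>
      refine hmul _ hf _ ?_
      obtain ⟨i, j⟩ := q
      rw [← row_single, show (Pi.single j (1 : K) : ι → K) = p.mulVec (Pi.single j 1) +
        (1 - p).mulVec (Pi.single j 1) by rw [← Matrix.add_mulVec, add_sub_cancel,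
          Matrix.one_mulVec], map_add]
      refine Submodule.add_mem _ (Submodule.mem_iSup_of_mem 1 ⟨?_, ?_⟩)
        (Submodule.mem_iSup_of_mem 0 ⟨?_, ?_⟩)
      · rw [D_row, Matrix.mulVec_mulVec, hp, Nat.cast_one, one_smul]
      · rw [hsub, Matrix.mulVec_mulVec, show (1 - p + c • p) * p = c • p by
            rw [add_mul, sub_mul, one_mul, hp, sub_self, zero_add, smul_mul_assoc, hp],
          Matrix.smul_mulVec, map_smul, pow_one]
      · rw [D_row, Matrix.mulVec_mulVec, mul_sub, mul_one, hp, sub_self, Matrix.zero_mulVec,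
          map_zero, Nat.cast_zero, zero_smul]
      · rw [hsub, Matrix.mulVec_mulVec, show (1 - p + c • p) * (1 - p) = 1 - p by
            have h5 : p * (1 - p) = 0 := by rw [mul_sub, mul_one, hp, sub_self]
            rw [add_mul, sub_mul, one_mul, smul_mul_assoc, h5, smul_zero, add_zero, sub_zero],
          pow_zero, one_smul]
  rw [eq_top_iff]
  intro f _
  have h1 := hW f
  induction h1 using Submodule.iSup_induction' with
  | mem r f hf => exact mem_repS_nat hφ hf.1 hf.2
  | zero => exact Submodule.zero_mem _
  | add a b _ _ ha hb => exact Submodule.add_mem _ (ha trivial) (hb trivial)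

variable {Γ : Type} [Group Γ] {R : Representation K Γ (ι → K)}
  {ω : (ι → K) →ₗ[K] (ι → K) →ₗ[K] K}

/-- The ideal of the identity component is determined by the Lie algebra. -/
theorem I0_eq_Jet [CharZero K] (hP : PinkGen ω R) :
    I0 R = Jet {x : Matrix ι ι K | ∃ y ∈ Lg R, x = toM y} := by
  refine le_antisymm ?_ ?_
  · intro f hf l hl
    have h1 : dl l f ∈ I0 R := by
      induction l with
      | nil => exact hf
      | cons y l ih =>
        rw [dl_cons]
        obtain ⟨y', hy', rfl⟩ := hl y (List.mem_cons_self ..)
        exact hy' _ (ih fun z hz => hl z (List.mem_cons_of_mem _ hz))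
    obtain ⟨Δ, hΔ, h⟩ := h1
    have h2 := h 1 Δ.one_mem
    rwa [map_one, toM_one] at h2
  · intro f hf
    refine hP f fun x hx => ?_
    have key : sub 1 (toM x) f ∈ Jet {x : Matrix ι ι K | ∃ y ∈ Lg R, x = toM y} := by
      induction hx using Submonoid.closure_induction generalizing f with
      | mem x hx =>
        obtain ⟨p, c, hp, -, rfl⟩ := hx
        obtain ⟨φ, hφ⟩ := exists_pow_fun c
        have hpp : toM p * toM p = toM p := by rw [← toM_mul, hp.1]
        have h1 := stable_of_top (top_sub hpp hφ)
          (S := Jet {x : Matrix ι ι K | ∃ y ∈ Lg R, x = toM y})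
          (fun f hf => Jet_D hf ⟨p, hodge_Lg hp, rfl⟩)
        rw [show toM (1 - p + c • p) = 1 - toM p + c • toM p by
          rw [show toM (1 - p + c • p) = toM (1 - p) + toM (c • p) from map_add _ _ _,
            show toM (1 - p) = toM 1 - toM p from map_sub _ _ _, toM_one,
            show toM (c • p) = c • toM p from map_smul _ _ _]]
        exact h1 f hf
      | one => rwa [toM_one, Pool.Agent.W528.ZC.sub_one]
      | mul x y _ _ hx hy =>
        rw [toM_mul, show (1 : Matrix ι ι K) = 1 * 1 from (mul_one 1).symm,
          ← Pool.Agent.W528.ZC.sub_sub]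
        exact hx (hy hf)
    have h1 := Jet_one key
    rwa [ev_sub, one_mul, one_mul] at h1

end

end Pool.Agent.P8H28.QF
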