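import Pool.Agent.P8H28.QF.Pol

/-!
# The Lie algebra of the identity component: replicas and semisimplicity
-/

set_option linter.unusedSectionVars false

namespace Pool.Agent.P8H28.QF

open Module MvPolynomial Pool.Agent.P8H28.SQ
open Pool.Agent.W528.ZC (toM toM_mul toM_one ev ev_X ev_C D D_X ev_D_X ev_D_mul ev_D_C I0 mem_I0
  InZ Lg WHodge PinkGen Lg_idem hID Lg_comm pot_of_hodge Lg_br hBR CR)
open Pool.Agent.H204R3.GP (HasProj)

noncomputable section

section gen

variable {K : Type} [Field K] {A : Type} [Ring A] [Algebra K A]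

theorem top_gen {D D' : Module.End K A} {φ : K →+ K}
    (hD : IsDer D) (hD' : IsDer D') {S : Set A} (hS : Algebra.adjoin K S = ⊤)
    (hgen : ∀ s ∈ S, s ∈ ⨆ μ, repS φ D D' μ) : ⨆ μ, repS φ D D' μ = ⊤ := by
  rw [eq_top_iff]
  intro a _
  have ha : a ∈ Algebra.adjoin K S := by rw [hS]; trivial
  have hmul : ∀ a ∈ ⨆ μ, repS φ D D' μ, ∀ b ∈ ⨆ μ, repS φ D D' μ,
      a * b ∈ ⨆ μ, repS φ D D' μ := by
    intro a ha b hb
    induction ha using Submodule.iSup_induction' with
    | mem μ a ha =>
      induction hb using Submodule.iSup_induction' with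
      | mem ν b hb =>
        refine Submodule.mem_iSup_of_mem (μ + ν) ⟨mge_mul hD ha.1 hb.1, ?_⟩
        rw [hD', ha.2, hb.2, map_add, add_smul, smul_mul_assoc, mul_smul_comm]
      | zero => rw [mul_zero]; exact Submodule.zero_mem _
      | add x y _ _ hx hy => rw [mul_add]; exact Submodule.add_mem _ hx hy
    | zero => rw [zero_mul]; exact Submodule.zero_mem _
    | add x y _ _ hx hy => rw [add_mul]; exact Submodule.add_mem _ hx hy
  have hone : (1 : A) ∈ ⨆ μ, repS φ D D' μ := by
    refine Submodule.mem_iSup_of_mem 0 ⟨?_, ?_⟩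
    · rw [Module.End.mem_maxGenEigenspace]
      exact ⟨1, by rw [pow_one, LinearMap.sub_apply, hD.one, LinearMap.smul_apply, zero_smul,
        sub_zero]⟩
    · rw [hD'.one, map_zero, zero_smul]
  induction ha using Algebra.adjoin_induction with
  | mem x hx => exact hgen x hx
  | algebraMap r =>
    rw [Algebra.algebraMap_eq_smul_one]
    exact Submodule.smul_mem _ _ hone
  | add x y _ _ hx hy => exact Submodule.add_mem _ (hx trivial) (hy trivial)
  | mul x y _ _ hx hy => exact hmul _ (hx trivial) _ (hy trivial)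

theorem mge_L {V V' : Type} [AddCommGroup V] [Module K V] [AddCommGroup V'] [Module K V']
    {D : Module.End K V} {D' : Module.End K V'} {L : V →ₗ[K] V'} (h : ∀ v, D' (L v) = L (D v))
    {μ : K} {v : V} (hv : v ∈ D.maxGenEigenspace μ) : L v ∈ D'.maxGenEigenspace μ := by
  rw [Module.End.mem_maxGenEigenspace] at hv ⊢
  obtain ⟨n, hn⟩ := hv
  refine ⟨n, ?_⟩
  have key : ∀ n : ℕ, ∀ v : V, ((D' - μ • (1 : Module.End K V')) ^ n) (L v) =
      L (((D - μ • (1 : Module.End K V)) ^ n) v) := by
    intro n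
    induction n with
    | zero => intro v; rfl
    | succ n ih =>
      intro v
      rw [pow_succ, Module.End.mul_apply, pow_succ, Module.End.mul_apply, ← ih]
      congr 1
      rw [LinearMap.sub_apply, LinearMap.sub_apply, h, map_sub]
      congr 1
      rw [LinearMap.smul_apply, LinearMap.smul_apply, map_smul]
      rfl
  rw [key, hn, map_zero]

end gen

variable {K : Type} [Field K] {ι : Type} [Fintype ι] [DecidableEq ι] {m : ℕ}

/-- The derivation as a linear operator. -/
def DE (y : Matrix ι ι K) : Module.End K (MvPolynomial (ι × ι) K) := (D y).toLinearMap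

theorem DE_apply (y : Matrix ι ι K) (f : MvPolynomial (ι × ι) K) : DE y f = D y f := rfl

theorem DE_der (y : Matrix ι ι K) : IsDer (DE y) := by
  intro a b
  change D y (a * b) = D y a * b + a * D y b
  rw [Derivation.leibniz, smul_eq_mul, smul_eq_mul]
  ring

/-- The linear forms in a row. -/
def row (i : ι) : (ι → K) →ₗ[K] MvPolynomial (ι × ι) K where
  toFun v := ∑ j, C (v j) * X (i, j)
  map_add' v w := by
    rw [← Finset.sum_add_distrib]
    exact Finset.sum_congr rfl fun j _ => by rw [Pi.add_apply, C_add, add_mul]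
  map_smul' c v := by
    rw [RingHom.id_apply, Finset.smul_sum]
    exact Finset.sum_congr rfl fun j _ => by
      rw [Pi.smul_apply, smul_eq_mul, C_mul, mul_assoc, smul_eq_C_mul]

theorem row_apply (i : ι) (v : ι → K) : row i v = ∑ j, C (v j) * X (i, j) := rfl

theorem row_single (i j : ι) : row i (Pi.single j (1 : K)) = X (i, j) := by
  rw [row_apply, Finset.sum_eq_single j]
  · rw [Pi.single_eq_same, C_1, one_mul]
  · intro k _ hk
    rw [Pi.single_eq_of_ne hk, C_0, zero_mul]
  · intro h
    exact absurd (Finset.mem_univ _) h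

theorem D_row (y : Matrix ι ι K) (i : ι) (v : ι → K) : D y (row i v) = row i (y.mulVec v) := by
  rw [row_apply, row_apply, map_sum]
  have h1 : ∀ q, D y (C (v q) * X (i, q)) = ∑ j, C (y j q * v q) * X (i, j) := by
    intro q
    rw [← smul_eq_C_mul, Derivation.map_smul, D_X, Finset.smul_sum]
    refine Finset.sum_congr rfl fun j _ => ?_
    rw [smul_eq_C_mul, ← mul_assoc, ← C_mul, mul_comm (v q)]
  rw [Finset.sum_congr rfl fun q _ => h1 q, Finset.sum_comm]
  refine Finset.sum_congr rfl fun j _ => ?_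
  rw [← Finset.sum_mul, Matrix.mulVec, dotProduct, map_sum]

theorem adjoin_X : Algebra.adjoin K (Set.range fun p : ι × ι => (X p : MvPolynomial (ι × ι) K)) =
    ⊤ := MvPolynomial.adjoin_range_X

theorem top_replica [IsAlgClosed K] {φ : K →+ K} {Y y : Matrix ι ι K}
    (h : IsReplica φ (Matrix.toLin' Y) (Matrix.toLin' y)) : ⨆ μ, repS φ (DE Y) (DE y) μ = ⊤ := by
  refine top_gen (DE_der Y) (DE_der y) adjoin_X ?_
  rintro _ ⟨⟨i, j⟩, rfl⟩
  change X (i, j) ∈ _
  rw [← row_single]
  have h1 : (Pi.single j (1 : K) : ι → K) ∈ 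
      ⨆ μ, Module.End.maxGenEigenspace (Matrix.toLin' Y) μ := by
    rw [Module.End.iSup_maxGenEigenspace_eq_top]
    trivial
  generalize (Pi.single j (1 : K) : ι → K) = w at h1
  induction h1 using Submodule.iSup_induction' with
  | mem μ v hv =>
    refine Submodule.mem_iSup_of_mem μ ⟨mge_L (L := row i) (fun v => ?_) hv, ?_⟩
    · rw [DE_apply, D_row, Matrix.toLin'_apply]
    · rw [DE_apply, D_row, ← Matrix.toLin'_apply, h μ v hv, map_smul]
  | zero => rw [map_zero]; exact Submodule.zero_mem _
  | add x y _ _ hx hy => rw [map_add]; exact Submodule.add_mem _ hx hy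

variable {Γ : Type} [Group Γ] {R : Representation K Γ (ι → K)}

theorem Lg_isLie : IsLie (Lg R) := fun _ hx _ hy => Lg_br hBR hx hy

/-- The Lie algebra contains the replicas of its elements. -/
theorem Lg_replica [IsAlgClosed K] [CharZero K] {Y : Module.End K (ι → K)} (hY : Y ∈ Lg R)
    (φ : K →+ ℚ) (y : Module.End K (ι → K)) (hy : IsReplica (fun μ => (φ μ : K)) Y y) :
    y ∈ Lg R := by
  let φ' : K →+ K := ((Rat.castHom K).toAddMonoidHom).comp φ
  have h1 : ⨆ μ, repS φ' (DE (toM Y)) (DE (toM y)) μ = ⊤ := by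
    refine top_replica ?_
    rw [show Matrix.toLin' (toM Y) = Y from Matrix.toLin'_toMatrix' Y,
      show Matrix.toLin' (toM y) = y from Matrix.toLin'_toMatrix' y]
    exact hy
  intro f hf
  exact stable_of_top h1 (S := I0 R) (fun f hf => hY f hf) f hf

variable {ω : (ι → K) →ₗ[K] (ι → K) →ₗ[K] K}

theorem hodge_Lg [CharZero K] {p : Module.End K (ι → K)} (hp : WHodge ω R p) : p ∈ Lg R :=
  Lg_idem hID hp.1 hp.2.2

/-- The space is a semisimple module over the Lie algebra. -/
theorem Lg_hss [CharZero K] (hss : HasProj R) (hP : PinkGen ω R) (W : Submodule K (ι → K))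
    (hW : ∀ x ∈ Lg R, ∀ w ∈ W, x w ∈ W) :
    ∃ W' : Submodule K (ι → K), (∀ x ∈ Lg R, ∀ w ∈ W', x w ∈ W') ∧ IsCompl W W' := by
  obtain ⟨Δ, hΔ, h1⟩ := pot_of_hodge hP W fun p hp u hu => hW p (hodge_Lg hp) u hu
  obtain ⟨Q, hQ1, hQ2, hQ3⟩ := hss Δ hΔ W h1
  refine ⟨LinearMap.ker Q, ?_, ?_⟩
  · intro x hx w hw
    rw [LinearMap.mem_ker] at hw ⊢
    have h2 := Lg_comm hx (P := Q) ⟨Δ, hΔ, fun g hg => LinearMap.ext fun v => hQ3 g hg v⟩
    have h3 := congrArg (fun f : Module.End K (ι → K) => f w) h2
    change x (Q w) = Q (x w) at h3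
    rw [← h3, hw, map_zero]
  · have h2 := LinearMap.isCompl_of_proj (p := W) (f := Q.codRestrict W hQ1)
      fun u => Subtype.ext (hQ2 u u.2)
    rwa [LinearMap.ker_codRestrict] at h2

/-- Nondegeneracy of the trace form. -/
theorem Lg_rad [IsAlgClosed K] [CharZero K] (hss : HasProj R) (hP : PinkGen ω R) :
    rad (Lg R) = ⊥ :=
  rad_eq_bot Lg_isLie (fun _ hY φ y hy => Lg_replica hY φ y hy) (Lg_hss hss hP)

/-- The operators that commute with the weak Hodge elements commute with a subgroup of finite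
index. -/
theorem comm_of_hodge [CharZero K] (hP : PinkGen ω R) {Z : Module.End K (ι → K)}
    (hZ : ∀ p, WHodge ω R p → p * Z = Z * p) : CR R Z := by
  obtain ⟨Δ, hΔ, h⟩ := exists_common hP 1
  refine ⟨Δ, hΔ, fun g hg => ?_⟩
  apply LinearMap.toMatrix'.injective
  change toM (Z * R g) = toM (R g * Z)
  have hcl : ∀ x ∈ Submonoid.closure {x : Module.End K (ι → K) |
      ∃ (p : Module.End K (ι → K)) (c : K), WHodge ω R p ∧ c ≠ 0 ∧ x = 1 - p + c • p},
      Z * x = x * Z := by
    intro x hx
    induction hx using Submonoid.closure_induction with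
    | mem x hx =>
      obtain ⟨p, c, hp, -, rfl⟩ := hx
      rw [mul_add, add_mul, mul_sub, sub_mul, mul_one, one_mul, mul_smul_comm, smul_mul_assoc,
        hZ p hp]
    | one => rw [mul_one, one_mul]
    | mul x y _ _ hx hy => rw [← mul_assoc, hx, mul_assoc, hy, mul_assoc]
  rw [toM_mul, toM_mul]
  ext i j
  let c : ι → Fin 1 → ι := fun i _ => i
  have ht : ∀ (x : Matrix ι ι K) i j, tens 1 x (c i) (c j) = x i j := by
    intro x i j
    rw [tens_apply, Fin.prod_univ_one]
  let Λ : Dual K (Matrix (Fin 1 → ι) (Fin 1 → ι) K) :=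
    { toFun := fun T => ∑ k, (toM Z i k * T (c k) (c j) - T (c i) (c k) * toM Z k j)
      map_add' := fun T T' => by
        rw [← Finset.sum_add_distrib]
        refine Finset.sum_congr rfl fun k _ => ?_
        simp only [Matrix.add_apply]
        ring
      map_smul' := fun a T => by
        rw [RingHom.id_apply, smul_eq_mul, Finset.mul_sum]
        refine Finset.sum_congr rfl fun k _ => ?_
        simp only [Matrix.smul_apply, smul_eq_mul]
        ring }
  have hΛ : ∀ x : Matrix ι ι K, Λ (tens 1 x) = (toM Z * x) i j - (x * toM Z) i j := by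
    intro x
    change ∑ k, (toM Z i k * tens 1 x (c k) (c j) - tens 1 x (c i) (c k) * toM Z k j) = _
    rw [Matrix.mul_apply, Matrix.mul_apply, ← Finset.sum_sub_distrib]
    exact Finset.sum_congr rfl fun k _ => by rw [ht, ht]
  have h1 := h Λ (fun x hx => by
    rw [hΛ, ← toM_mul, ← toM_mul, hcl x hx, sub_self]) g hg
  rw [hΛ] at h1
  exact sub_eq_zero.1 h1

/-- The rank of a weak Hodge element. -/
theorem hodge_rank (hnd : ∀ u, (∀ v, ω u v = 0) → u = 0) (hcard : Fintype.card ι = 2 * m)
    {p : Module.End K (ι → K)} (hpp : p * p = p)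
    (hp : ∀ u v, ω (p u) v + ω u (p v) = ω u v) :
    finrank K (LinearMap.range p) = m ∧ finrank K (LinearMap.range (1 - p)) = m := by
  have hfr : finrank K (ι → K) = 2 * m := by rw [finrank_fintype_fun_eq_card, hcard]
  have hinj : Function.Injective ω := by
    rw [injective_iff_map_eq_zero]
    intro u hu
    exact hnd u fun v => by rw [hu]; rfl
  have key : ∀ W : Submodule K (ι → K), (∀ u ∈ W, ∀ v ∈ W, ω u v = 0) → finrank K W ≤ m := by
    intro W hW
    have h3 : W.map ω ≤ W.dualAnnihilator := by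
      rintro _ ⟨u, hu, rfl⟩
      rw [Submodule.mem_dualAnnihilator]
      exact fun v hv => hW u hu v hv
    have h4 := Submodule.finrank_mono h3
    rw [← (Submodule.equivMapOfInjective ω hinj W).finrank_eq] at h4
    have h5 := Subspace.finrank_add_finrank_dualAnnihilator_eq W
    have h4' : finrank K W ≤ finrank K W.dualAnnihilator := h4
    rw [hfr] at h5
    omega
  have h3 : ∀ u ∈ LinearMap.range p, p u = u := by
    rintro _ ⟨w, rfl⟩
    rw [← Module.End.mul_apply, hpp]
  have h4 : ∀ u ∈ LinearMap.range (1 - p), p u = 0 := by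
    rintro _ ⟨w, rfl⟩
    rw [← Module.End.mul_apply, mul_sub, mul_one, hpp, sub_self, LinearMap.zero_apply]
  have h5 := key (LinearMap.range p) fun u hu v hv => by
    have h6 := hp u v
    rw [h3 u hu, h3 v hv] at h6
    linear_combination h6
  have h6 := key (LinearMap.range (1 - p)) fun u hu v hv => by
    have h6 := hp u v
    rw [h4 u hu, h4 v hv, map_zero, map_zero, LinearMap.zero_apply, add_zero] at h6
    exact h6.symm
  have h7 : LinearMap.range (1 - p) = LinearMap.ker p := by
    ext v
    constructor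
    · intro hv
      exact h4 v hv
    · intro hv
      refine ⟨v, ?_⟩
      rw [LinearMap.sub_apply, Module.End.one_apply, LinearMap.mem_ker.1 hv, sub_zero]
  have h8 := LinearMap.finrank_range_add_finrank_ker p
  rw [h7] at h6 ⊢
  omega

end

end Pool.Agent.P8H28.QF
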