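import Pool.Agent.P8H28.QF.Alt
import Pool.Agent.W528.ZC.Main2

/-!
# Polynomial functions and tensors
-/

set_option linter.unusedSectionVars false

namespace Pool.Agent.P8H28.QF

open Module MvPolynomial Pool.Agent.P8H28.SQ
open Pool.Agent.W528.ZC (toM toM_mul toM_one ev ev_X ev_C D D_X ev_D_X ev_D_mul ev_D_C I0 mem_I0
  InZ Lg WHodge PinkGen ev_D_subX ev_subX)

noncomputable section

variable {K : Type} [Field K] {ι : Type} [Fintype ι] [DecidableEq ι] {m : ℕ}

/-- The product of coordinates. -/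
def tp (a b : Fin m → ι) : MvPolynomial (ι × ι) K := ∏ i, X (a i, b i)

theorem ev_tp (x : Matrix ι ι K) (a b : Fin m → ι) : ev x (tp a b) = tens m x a b := by
  unfold tp
  rw [map_prod, tens_apply]
  exact Finset.prod_congr rfl fun i _ => ev_X _ _

theorem ev_D_prod (x y : Matrix ι ι K) {κ : Type} [DecidableEq κ] (s : Finset κ)
    (f : κ → MvPolynomial (ι × ι) K) :
    ev x (D y (∏ i ∈ s, f i)) = ∑ i ∈ s, (∏ j ∈ s.erase i, ev x (f j)) * ev x (D y (f i)) := by
  induction s using Finset.induction_on with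
  | empty =>
    rw [Finset.prod_empty, Finset.sum_empty]
    have h := ev_D_C x y 1
    rwa [C_1] at h
  | insert a s ha ih =>
    rw [Finset.prod_insert ha, ev_D_mul, ih, Finset.sum_insert ha, Finset.erase_insert ha,
      map_prod, Finset.mul_sum, add_comm]
    congr 1
    refine Finset.sum_congr rfl fun i hi => ?_
    have hia : i ≠ a := fun h => ha (h ▸ hi)
    rw [Finset.erase_insert_of_ne (Ne.symm hia),
      Finset.prod_insert (fun h => ha (Finset.mem_of_mem_erase h)), mul_assoc]

theorem ev_D_tp (y : Matrix ι ι K) (a b : Fin m → ι) :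
    ev 1 (D y (tp a b)) = LinearMap.toMatrix' (dt m y) a b := by
  unfold tp
  rw [ev_D_prod, LinearMap.toMatrix'_apply, dt_eq, LinearMap.sum_apply, Finset.sum_apply]
  refine Finset.sum_congr rfl fun k _ => ?_
  rw [ev_D_X, one_mul, dk_apply]
  simp only [ev_X]
  by_cases h : ∀ i, i ≠ k → a i = b i
  · have h1 : ∏ i ∈ Finset.univ.erase k, (1 : Matrix ι ι K) (a i) (b i) = 1 :=
      Finset.prod_eq_one fun i hi => by
        rw [h i (Finset.mem_erase.1 hi).1, Matrix.one_apply_eq]
    rw [h1, one_mul, Finset.sum_eq_single (b k)]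
    · have h2 : Function.update a k (b k) = b := by
        funext i
        by_cases hi : i = k
        · subst hi
          rw [Function.update_self]
        · rw [Function.update_of_ne hi, h i hi]
      rw [h2]
      simp
    · intro j _ hj
      have h2 : Function.update a k j ≠ b := fun h3 => hj (by rw [← h3, Function.update_self])
      simp [h2]
    · intro h3
      exact absurd (Finset.mem_univ _) h3
  · push Not at h
    obtain ⟨i, hi, hab⟩ := h
    have h1 : ∏ i ∈ Finset.univ.erase k, (1 : Matrix ι ι K) (a i) (b i) = 0 :=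
      Finset.prod_eq_zero (Finset.mem_erase.2 ⟨hi, Finset.mem_univ i⟩) (Matrix.one_apply_ne hab)
    rw [h1, zero_mul]
    refine (Finset.sum_eq_zero fun j _ => ?_).symm
    have h2 : Function.update a k j ≠ b := fun h3 => hab (by
      rw [← h3, Function.update_of_ne hi])
    simp [h2]

/-- The polynomial of a linear form. -/
def fL (Λ : Dual K (Matrix (Fin m → ι) (Fin m → ι) K)) : MvPolynomial (ι × ι) K :=
  ∑ a, ∑ b, C (Λ (Matrix.single a b 1)) * tp a b

theorem mat_sum (Λ : Dual K (Matrix (Fin m → ι) (Fin m → ι) K))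
    (T : Matrix (Fin m → ι) (Fin m → ι) K) :
    Λ T = ∑ a, ∑ b, Λ (Matrix.single a b 1) * T a b := by
  conv_lhs => rw [Matrix.matrix_eq_sum_single T]
  simp only [map_sum]
  refine Finset.sum_congr rfl fun a _ => Finset.sum_congr rfl fun b _ => ?_
  rw [show Matrix.single a b (T a b) = T a b • Matrix.single a b (1 : K) by
    rw [Matrix.smul_single, smul_eq_mul, mul_one], map_smul, smul_eq_mul, mul_comm]

theorem ev_fL (Λ : Dual K (Matrix (Fin m → ι) (Fin m → ι) K)) (x : Matrix ι ι K) :
    ev x (fL Λ) = Λ (tens m x) := by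
  rw [mat_sum]
  unfold fL
  simp only [map_sum, map_mul, ev_C, ev_tp]

theorem ev_D_fL (Λ : Dual K (Matrix (Fin m → ι) (Fin m → ι) K)) (y : Matrix ι ι K) :
    ev 1 (D y (fL Λ)) = Λ (LinearMap.toMatrix' (dt m y)) := by
  rw [mat_sum]
  unfold fL
  simp only [map_sum, ev_D_mul, ev_D_C, mul_zero, add_zero, ev_C, ev_D_tp]

variable {Γ : Type} [Group Γ] {R : Representation K Γ (ι → K)}

/-- Linear relations between the entries of the tensor power hold for the Lie algebra. -/
theorem Lg_lin {y : Module.End K (ι → K)} (hy : y ∈ Lg R)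
    (Λ : Dual K (Matrix (Fin m → ι) (Fin m → ι) K))
    (h : ∃ Δ : Subgroup Γ, Δ.FiniteIndex ∧ ∀ g ∈ Δ, Λ (tens m (toM (R g))) = 0) :
    Λ (LinearMap.toMatrix' (dt m (toM y))) = 0 := by
  obtain ⟨Δ, hΔ, h⟩ := h
  have h1 : fL Λ ∈ I0 R := ⟨Δ, hΔ, fun g hg => by rw [ev_fL]; exact h g hg⟩
  obtain ⟨Δ', hΔ', h2⟩ := hy _ h1
  have h3 := h2 1 Δ'.one_mem
  rwa [map_one, toM_one, ev_D_fL] at h3

/-- The Lie algebra commutes with the matrices that commute with the tensor power. -/
theorem Lg_tens_comm {y : Module.End K (ι → K)} (hy : y ∈ Lg R)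
    {P : Matrix (Fin m → ι) (Fin m → ι) K}
    (h : ∃ Δ : Subgroup Γ, Δ.FiniteIndex ∧
      ∀ g ∈ Δ, P * tens m (toM (R g)) = tens m (toM (R g)) * P) :
    P * LinearMap.toMatrix' (dt m (toM y)) = LinearMap.toMatrix' (dt m (toM y)) * P := by
  obtain ⟨Δ, hΔ, h⟩ := h
  ext a b
  let Λ : Dual K (Matrix (Fin m → ι) (Fin m → ι) K) :=
    { toFun := fun T => (P * T - T * P) a b
      map_add' := fun T T' => by
        simp only [mul_add, add_mul, Matrix.add_apply, Matrix.sub_apply]
        ring
      map_smul' := fun c T => by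
        rw [mul_smul_comm, smul_mul_assoc, ← smul_sub, Matrix.smul_apply]
        rfl }
  have hΛ : ∀ T, Λ T = (P * T - T * P) a b := fun T => rfl
  have h1 := Lg_lin hy Λ ⟨Δ, hΔ, fun g hg => by
    rw [hΛ, h g hg, sub_self]
    rfl⟩
  rw [hΛ, Matrix.sub_apply] at h1
  exact sub_eq_zero.1 h1

/-- Finitely many polynomials vanish on a common subgroup. -/
theorem common (F : Submodule K (MvPolynomial (ι × ι) K)) (hF : F.FG) (h : F ≤ I0 R) :
    ∃ Δ : Subgroup Γ, Δ.FiniteIndex ∧ ∀ g ∈ Δ, ∀ f ∈ F, ev (toM (R g)) f = 0 := by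
  obtain ⟨S, rfl⟩ := hF
  choose Δ hΔ hv using fun f : S => (mem_I0.1 (h (Submodule.subset_span f.2)))
  refine ⟨⨅ f, Δ f, Subgroup.finiteIndex_iInf hΔ, fun g hg f hf => ?_⟩
  induction hf using Submodule.span_induction with
  | mem f hf => exact hv ⟨f, hf⟩ g (Subgroup.mem_iInf.1 hg _)
  | zero => exact map_zero _
  | add f f' _ _ h1 h2 => rw [map_add, h1, h2, add_zero]
  | smul c f _ h1 => rw [map_smul, h1, smul_zero]

variable {ω : (ι → K) →ₗ[K] (ι → K) →ₗ[K] K}

/-- The linear map to the polynomials. -/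
def fLL : Dual K (Matrix (Fin m → ι) (Fin m → ι) K) →ₗ[K] MvPolynomial (ι × ι) K where
  toFun := fL
  map_add' Λ Λ' := by
    unfold fL
    rw [← Finset.sum_add_distrib]
    refine Finset.sum_congr rfl fun a _ => ?_
    rw [← Finset.sum_add_distrib]
    refine Finset.sum_congr rfl fun b _ => ?_
    rw [LinearMap.add_apply, C_add, add_mul]
  map_smul' c Λ := by
    unfold fL
    rw [RingHom.id_apply, Finset.smul_sum]
    refine Finset.sum_congr rfl fun a _ => ?_
    rw [Finset.smul_sum]
    refine Finset.sum_congr rfl fun b _ => ?_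
    rw [LinearMap.smul_apply, smul_eq_mul, C_mul, mul_assoc, smul_eq_C_mul]

/-- Linear relations between the entries of the tensor powers on the group generated by the weak
Hodge cocharacters hold on a subgroup of finite index. -/
theorem exists_common (hP : PinkGen ω R) (m : ℕ) : ∃ Δ : Subgroup Γ, Δ.FiniteIndex ∧
    ∀ Λ : Dual K (Matrix (Fin m → ι) (Fin m → ι) K),
      (∀ x ∈ Submonoid.closure {x : Module.End K (ι → K) | ∃ (p : Module.End K (ι → K)) (c : K),
        WHodge ω R p ∧ c ≠ 0 ∧ x = 1 - p + c • p}, Λ (tens m (toM x)) = 0) →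
      ∀ g ∈ Δ, Λ (tens m (toM (R g))) = 0 := by
  obtain ⟨Δ, hΔ, h⟩ := common (R := R) ((LinearMap.range (fLL (K := K) (ι := ι) (m := m))) ⊓ I0 R)
    (by
      have h1 : FiniteDimensional K
          ((LinearMap.range (fLL (K := K) (ι := ι) (m := m)) ⊓ I0 R : Submodule K _)) :=
        Submodule.finiteDimensional_of_le inf_le_left
      exact Module.Finite.iff_fg.1 h1) inf_le_right
  refine ⟨Δ, hΔ, fun Λ hΛ g hg => ?_⟩
  have h1 := h g hg (fL Λ) ⟨⟨Λ, rfl⟩, hP _ fun x hx => by rw [ev_fL]; exact hΛ x hx⟩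
  rwa [ev_fL] at h1

/-- A space of tensors that is stable under the weak Hodge elements is stable under a subgroup of
finite index. -/
theorem stable_tens [CharZero K] (hP : PinkGen ω R) (m : ℕ) : ∃ Δ : Subgroup Γ, Δ.FiniteIndex ∧
    ∀ U : Submodule K ((Fin m → ι) → K),
      (∀ p, WHodge ω R p → ∀ u ∈ U, DT m K ι p u ∈ U) →
      ∀ g ∈ Δ, ∀ u ∈ U, (tens m (toM (R g))).mulVec u ∈ U := by
  obtain ⟨Δ, hΔ, h⟩ := exists_common hP m
  refine ⟨Δ, hΔ, fun U hU g hg u hu => ?_⟩
  have hst : ∀ x ∈ Submonoid.closure {x : Module.End K (ι → K) |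
      ∃ (p : Module.End K (ι → K)) (c : K), WHodge ω R p ∧ c ≠ 0 ∧ x = 1 - p + c • p},
      ∀ u ∈ U, (tens m (toM x)).mulVec u ∈ U := by
    intro x hx
    induction hx using Submonoid.closure_induction with
    | mem x hx =>
      obtain ⟨p, c, hp, -, rfl⟩ := hx
      obtain ⟨φ, hφ⟩ := exists_pow_fun c
      have hpp : toM p * toM p = toM p := by rw [← toM_mul, hp.1]
      have h1 := stable_of_top (top_idem (m := m) hpp hφ) (S := U) (hU p hp)
      intro u hu
      have h2 := h1 u hu
      rw [Matrix.toLin'_apply] at h2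
      rwa [show toM (1 - p + c • p) = 1 - toM p + c • toM p by
        rw [show toM (1 - p + c • p) = toM (1 - p) + toM (c • p) from map_add _ _ _,
          show toM (1 - p) = toM 1 - toM p from map_sub _ _ _, toM_one,
          show toM (c • p) = c • toM p from map_smul _ _ _]]
    | one =>
      intro u hu
      rwa [toM_one, tens_one, Matrix.one_mulVec]
    | mul x y _ _ hx hy =>
      intro u hu
      rw [toM_mul, tens_mul, ← Matrix.mulVec_mulVec]
      exact hx _ (hy _ hu)
  by_contra hne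
  obtain ⟨f, hf1, hf2⟩ := Submodule.exists_le_ker_of_notMem hne
  let Λ : Dual K (Matrix (Fin m → ι) (Fin m → ι) K) :=
    { toFun := fun T => f (T.mulVec u)
      map_add' := fun T T' => by rw [Matrix.add_mulVec, map_add]
      map_smul' := fun c T => by rw [Matrix.smul_mulVec, map_smul]; rfl }
  exact hf1 (h Λ (fun x hx => hf2 (hst x hx u hu)) g hg)

end

end Pool.Agent.P8H28.QF
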