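import Pool.Agent.P8H28.SQ.Rep

/-!
# Stable subspaces and replicas
-/

set_option linter.unusedSectionVars false

namespace Pool.Agent.P8H28.QF

open Module Polynomial Pool.Agent.P8H28.SQ

variable {K V : Type*} [Field K] [AddCommGroup V] [Module K V]

/-- The components of the elements of a stable subspace are in the subspace. -/
theorem comp_mem {D : Module.End K V} {S : Submodule K V} (hS : ∀ x ∈ S, D x ∈ S)
    (g : K →₀ V) (hg : ∀ μ, g μ ∈ D.maxGenEigenspace μ) (h : (g.sum fun _ v => v) ∈ S) (μ : K) :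
    g μ ∈ S := by
  classical
  by_cases hμ : μ ∈ g.support
  swap
  · rw [Finsupp.notMem_support_iff.1 hμ]
    exact S.zero_mem
  have hS' : ∀ q : K[X], ∀ x ∈ S, aeval D q x ∈ S := by
    intro q x hx
    induction q using Polynomial.induction_on' with
    | add p q hp hq => rw [map_add, LinearMap.add_apply]; exact S.add_mem hp hq
    | monomial n a =>
      rw [aeval_monomial, Module.End.mul_apply, Module.algebraMap_end_apply]
      refine S.smul_mem _ ?_
      induction n with
      | zero => exact hx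
      | succ n ih => rw [pow_succ', Module.End.mul_apply]; exact hS _ ih
  have h1 : ∀ ν : K, ∃ n : ℕ, ((D - ν • (1 : Module.End K V)) ^ n) (g ν) = 0 := by
    intro ν
    have h2 := hg ν
    rwa [Module.End.mem_maxGenEigenspace] at h2
  choose n hn using h1
  let N := g.support.sup n
  have hN : ∀ ν ∈ g.support, aeval D ((X - C ν) ^ N) (g ν) = 0 := by
    intro ν hν
    have h2 : n ν ≤ N := Finset.le_sup hν
    obtain ⟨r, hr⟩ := Nat.exists_eq_add_of_le h2
    rw [map_pow, map_sub, aeval_X, aeval_C, hr, add_comm, pow_add, Module.End.mul_apply]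
    have h3 : algebraMap K (Module.End K V) ν = ν • (1 : Module.End K V) :=
      Algebra.algebraMap_eq_smul_one ν
    rw [h3, hn, map_zero]
  let Q : K[X] := ∏ ν ∈ g.support.erase μ, (X - C ν) ^ N
  have hcop : IsCoprime Q ((X - C μ) ^ N) := by
    refine IsCoprime.prod_left fun ν hν => IsCoprime.pow ?_
    refine isCoprime_X_sub_C_of_isUnit_sub ?_
    exact (sub_ne_zero.2 (Finset.mem_erase.1 hν).1).isUnit
  obtain ⟨a, b, hab⟩ := hcop
  have h2 : g μ = aeval D (a * Q) (g.sum fun _ v => v) := by
    rw [Finsupp.sum, map_sum, Finset.sum_eq_single μ]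
    · have h3 := congrArg (fun q => aeval D q (g μ)) hab
      simp only [map_add, map_one, LinearMap.add_apply, Module.End.one_apply] at h3
      rw [map_mul (aeval D) b, Module.End.mul_apply, hN μ hμ, map_zero, add_zero] at h3
      exact h3.symm
    · intro ν hν hne
      have h3 : Q = (∏ ξ ∈ (g.support.erase μ).erase ν, (X - C ξ) ^ N) * (X - C ν) ^ N := by
        rw [Finset.prod_erase_mul _ _ (Finset.mem_erase.2 ⟨hne, hν⟩)]
      rw [h3, ← mul_assoc, map_mul, Module.End.mul_apply, hN ν hν, map_zero]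
    · intro h4
      exact absurd hμ h4
  rw [h2]
  exact hS' _ _ h

/-- A subspace stable under `D` is stable under `D'` if `D'` acts on the generalized eigenspaces of
`D` by scalars. -/
theorem stable_of_top {φ : K → K} {D D' : Module.End K V} (h : ⨆ μ, repS φ D D' μ = ⊤)
    {S : Submodule K V} (hS : ∀ x ∈ S, D x ∈ S) : ∀ x ∈ S, D' x ∈ S := by
  intro x hx
  have h1 : x ∈ ⨆ μ, repS φ D D' μ := by rw [h]; trivial
  obtain ⟨g, hg, rfl⟩ := (Submodule.mem_iSup_iff_exists_finsupp _ _).1 h1
  have h2 := comp_mem hS g (fun μ => (hg μ).1) hx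
  rw [Finsupp.sum, map_sum]
  refine S.sum_mem fun μ _ => ?_
  rw [(hg μ).2]
  exact S.smul_mem _ (h2 μ)

/-- The function `c ^ r`. -/
theorem exists_pow_fun [CharZero K] (c : K) : ∃ φ : K → K, ∀ r : ℕ, φ r = c ^ r := by
  refine ⟨Function.extend (Nat.cast : ℕ → K) (fun r => c ^ r) 0, fun r => ?_⟩
  exact Nat.cast_injective.extend_apply _ _ _

theorem mem_repS_nat {φ : K → K} {c : K} (hφ : ∀ r : ℕ, φ r = c ^ r) {D D' : Module.End K V}
    {r : ℕ} {v : V} (h1 : D v = (r : K) • v) (h2 : D' v = c ^ r • v) :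
    v ∈ ⨆ μ, repS φ D D' μ := by
  refine Submodule.mem_iSup_of_mem (r : K) ⟨?_, by rw [h2, hφ]⟩
  rw [Module.End.mem_maxGenEigenspace]
  refine ⟨1, ?_⟩
  rw [pow_one, LinearMap.sub_apply, h1, LinearMap.smul_apply, Module.End.one_apply, sub_self]

end Pool.Agent.P8H28.QF
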