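import Pool.Agent.P8H28.QF.Defs
import Pool.Agent.P8H28.QF.Stab

/-!
# Tensors: the derivations and the pure tensors
-/

set_option linter.unusedSectionVars false

namespace Pool.Agent.P8H28.QF

open Module Pool.Agent.P8H28.SQ

noncomputable section

variable {K : Type} [Field K] {ι : Type} [Fintype ι] [DecidableEq ι] {m : ℕ}

/-- The action of `x` on one index. -/
def dk (k : Fin m) (x : Matrix ι ι K) : Module.End K ((Fin m → ι) → K) where
  toFun u a := ∑ j, x (a k) j * u (Function.update a k j)
  map_add' u v := by
    funext a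
    rw [Pi.add_apply, ← Finset.sum_add_distrib]
    exact Finset.sum_congr rfl fun j _ => mul_add _ _ _
  map_smul' c u := by
    funext a
    rw [Pi.smul_apply, RingHom.id_apply, smul_eq_mul, Finset.mul_sum]
    refine Finset.sum_congr rfl fun j _ => ?_
    rw [Pi.smul_apply, smul_eq_mul]
    ring

theorem dk_apply (k : Fin m) (x : Matrix ι ι K) (u : (Fin m → ι) → K) (a : Fin m → ι) :
    dk k x u a = ∑ j, x (a k) j * u (Function.update a k j) := rfl

theorem dk_mul (k : Fin m) (x y : Matrix ι ι K) : dk k x * dk k y = dk k (x * y) := by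
  refine LinearMap.ext fun u => funext fun a => ?_
  rw [Module.End.mul_apply, dk_apply, dk_apply]
  simp only [dk_apply, Function.update_self, Function.update_idem, Matrix.mul_apply,
    Finset.mul_sum, Finset.sum_mul]
  rw [Finset.sum_comm]
  exact Finset.sum_congr rfl fun j _ => Finset.sum_congr rfl fun i _ => by ring

theorem dk_comm {k l : Fin m} (h : k ≠ l) (x y : Matrix ι ι K) :
    dk k x * dk l y = dk l y * dk k x := by
  refine LinearMap.ext fun u => funext fun a => ?_
  rw [Module.End.mul_apply, Module.End.mul_apply, dk_apply, dk_apply]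
  simp only [dk_apply, Finset.mul_sum]
  rw [Finset.sum_comm]
  refine Finset.sum_congr rfl fun j _ => Finset.sum_congr rfl fun i _ => ?_
  rw [Function.update_of_ne h.symm, Function.update_of_ne h, Function.update_comm h]
  ring

theorem dk_add (k : Fin m) (x y : Matrix ι ι K) : dk k (x + y) = dk k x + dk k y := by
  refine LinearMap.ext fun u => funext fun a => ?_
  rw [LinearMap.add_apply, Pi.add_apply, dk_apply, dk_apply, dk_apply, ← Finset.sum_add_distrib]
  exact Finset.sum_congr rfl fun j _ => by rw [Matrix.add_apply, add_mul]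

theorem dk_smul (k : Fin m) (c : K) (x : Matrix ι ι K) : dk k (c • x) = c • dk k x := by
  refine LinearMap.ext fun u => funext fun a => ?_
  rw [LinearMap.smul_apply, Pi.smul_apply, dk_apply, dk_apply, smul_eq_mul, Finset.mul_sum]
  exact Finset.sum_congr rfl fun j _ => by rw [Matrix.smul_apply, smul_eq_mul, mul_assoc]

/-- The derivation of the tensors given by a matrix. -/
def dt (m : ℕ) : Matrix ι ι K →ₗ[K] Module.End K ((Fin m → ι) → K) where
  toFun x := ∑ k, dk k x
  map_add' x y := by
    rw [← Finset.sum_add_distrib]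
    exact Finset.sum_congr rfl fun k _ => dk_add k x y
  map_smul' c x := by
    rw [RingHom.id_apply, Finset.smul_sum]
    exact Finset.sum_congr rfl fun k _ => dk_smul k c x

theorem dt_eq (x : Matrix ι ι K) : dt m x = ∑ k, dk k x := rfl

theorem dt_br (x y : Matrix ι ι K) : dt m (x * y - y * x) = dt m x * dt m y - dt m y * dt m x := by
  rw [map_sub, dt_eq, dt_eq, dt_eq x, dt_eq y, Finset.sum_mul_sum, Finset.sum_mul_sum,
    Finset.sum_comm (f := fun i j => dk i y * dk j x), ← Finset.sum_sub_distrib,
    ← Finset.sum_sub_distrib]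
  refine Finset.sum_congr rfl fun k _ => ?_
  rw [← Finset.sum_sub_distrib, Finset.sum_eq_single k]
  · rw [dk_mul, dk_mul]
  · intro l _ hl
    rw [dk_comm hl, sub_self]
  · intro h
    exact absurd (Finset.mem_univ k) h

/-- The pure tensors. -/
def pt : MultilinearMap K (fun _ : Fin m => ι → K) ((Fin m → ι) → K) :=
  MultilinearMap.pi fun a => (MultilinearMap.mkPiAlgebra K (Fin m) K).compLinearMap
    fun i => LinearMap.proj (a i)

theorem pt_apply (v : Fin m → ι → K) (a : Fin m → ι) : pt v a = ∏ i, v i (a i) := by
  unfold pt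
  rw [MultilinearMap.pi_apply, MultilinearMap.compLinearMap_apply,
    MultilinearMap.mkPiAlgebra_apply]
  rfl

theorem dk_pt (k : Fin m) (x : Matrix ι ι K) (v : Fin m → ι → K) :
    dk k x (pt v) = pt (Function.update v k (x.mulVec (v k))) := by
  funext a
  rw [dk_apply, pt_apply, ← Finset.mul_prod_erase _ _ (Finset.mem_univ k),
    Function.update_self, Matrix.mulVec, dotProduct, Finset.sum_mul]
  refine Finset.sum_congr rfl fun j _ => ?_
  rw [pt_apply, ← Finset.mul_prod_erase _ _ (Finset.mem_univ k), Function.update_self, mul_assoc]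
  congr 2
  refine Finset.prod_congr rfl fun i hi => ?_
  rw [Function.update_of_ne (Finset.mem_erase.1 hi).1,
    Function.update_of_ne (Finset.mem_erase.1 hi).1]

theorem dt_pt (x : Matrix ι ι K) (v : Fin m → ι → K) :
    dt m x (pt v) = ∑ k, pt (Function.update v k (x.mulVec (v k))) := by
  rw [dt_eq, LinearMap.sum_apply]
  exact Finset.sum_congr rfl fun k _ => dk_pt k x v

theorem tens_pt (M : Matrix ι ι K) (v : Fin m → ι → K) :
    (tens m M).mulVec (pt v) = pt fun i => M.mulVec (v i) := by
  funext a
  rw [pt_apply]
  simp only [Matrix.mulVec, dotProduct]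
  rw [Finset.prod_univ_sum, Fintype.piFinset_univ]
  refine Finset.sum_congr rfl fun b _ => ?_
  rw [pt_apply, tens_apply, ← Finset.prod_mul_distrib]

theorem single_eq_pt (a : Fin m → ι) : (Pi.single a 1 : (Fin m → ι) → K) =
    pt fun i => (Pi.single (a i) 1 : ι → K) := by
  funext b
  rw [pt_apply]
  by_cases h : b = a
  · subst h
    rw [Pi.single_eq_same]
    symm
    refine Finset.prod_eq_one fun i _ => ?_
    rw [Pi.single_eq_same]
  · rw [Pi.single_eq_of_ne h]
    obtain ⟨i, hi⟩ := Function.ne_iff.1 h
    symm
    refine Finset.prod_eq_zero (Finset.mem_univ i) ?_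
    rw [Pi.single_eq_of_ne hi]

theorem pt_span : Submodule.span K (Set.range fun v : Fin m → ι → K => pt v) = ⊤ := by
  rw [eq_top_iff]
  intro u _
  rw [pi_eq_sum_univ u]
  refine Submodule.sum_mem _ fun a _ => Submodule.smul_mem _ _ (Submodule.subset_span
    ⟨fun i => (Pi.single (a i) 1 : ι → K), ?_⟩)
  change pt _ = _
  rw [← single_eq_pt]
  funext b
  rw [Pi.single_apply]
  by_cases h : a = b
  · rw [if_pos h, if_pos h.symm]
  · rw [if_neg h, if_neg (Ne.symm h)]

/-- The subspaces stable under the derivation given by an idempotent are stable under the action of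
the one-parameter group. -/
theorem top_idem {p : Matrix ι ι K} (hp : p * p = p) {c : K} {φ : K → K}
    (hφ : ∀ r : ℕ, φ r = c ^ r) :
    ⨆ μ, repS φ (dt m p) (Matrix.toLin' (tens m (1 - p + c • p))) μ = ⊤ := by
  classical
  rw [eq_top_iff, ← pt_span, Submodule.span_le]
  rintro _ ⟨v, rfl⟩
  change pt v ∈ _
  have h1 : ∀ i, v i = p.mulVec (v i) + (1 - p).mulVec (v i) := by
    intro i
    rw [← Matrix.add_mulVec, add_sub_cancel, Matrix.one_mulVec]
  have h2 : pt v = ∑ s : Finset (Fin m), pt (s.piecewise (fun i => p.mulVec (v i))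
      fun i => (1 - p).mulVec (v i)) := by
    conv_lhs => rw [show v = (fun i => p.mulVec (v i)) + fun i => (1 - p).mulVec (v i) from
      funext h1]
    exact MultilinearMap.map_add_univ _ _ _
  rw [h2]
  refine Submodule.sum_mem _ fun s _ => mem_repS_nat hφ (r := s.card) ?_ ?_
  · rw [dt_pt]
    have h3 : ∀ k, pt (Function.update (s.piecewise (fun i => p.mulVec (v i))
        fun i => (1 - p).mulVec (v i)) k (p.mulVec (s.piecewise (fun i => p.mulVec (v i))
        (fun i => (1 - p).mulVec (v i)) k))) = if k ∈ s then pt (s.piecewise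
          (fun i => p.mulVec (v i)) fun i => (1 - p).mulVec (v i)) else 0 := by
      intro k
      by_cases hk : k ∈ s
      · rw [if_pos hk]
        congr 1
        have h4 : p.mulVec (s.piecewise (fun i => p.mulVec (v i))
            (fun i => (1 - p).mulVec (v i)) k) = s.piecewise (fun i => p.mulVec (v i))
            (fun i => (1 - p).mulVec (v i)) k := by
          rw [Finset.piecewise_eq_of_mem _ _ _ hk, Matrix.mulVec_mulVec, hp]
        rw [h4, Function.update_eq_self]
      · rw [if_neg hk]
        have h4 : p.mulVec (s.piecewise (fun i => p.mulVec (v i))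
            (fun i => (1 - p).mulVec (v i)) k) = 0 := by
          rw [Finset.piecewise_eq_of_notMem _ _ _ hk, Matrix.mulVec_mulVec, mul_sub, mul_one, hp,
            sub_self, Matrix.zero_mulVec]
        rw [h4]
        exact pt.map_update_zero _ _
    rw [Finset.sum_congr rfl fun k _ => h3 k, Finset.sum_ite_mem, Finset.univ_inter,
      Finset.sum_const, Nat.cast_smul_eq_nsmul]
  · rw [Matrix.toLin'_apply, tens_pt]
    have h3 : (fun i => (1 - p + c • p).mulVec (s.piecewise (fun i => p.mulVec (v i))
        (fun i => (1 - p).mulVec (v i)) i)) = fun i => (if i ∈ s then c else 1) •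
          s.piecewise (fun i => p.mulVec (v i)) (fun i => (1 - p).mulVec (v i)) i := by
      funext i
      by_cases hi : i ∈ s
      · rw [if_pos hi, Finset.piecewise_eq_of_mem _ _ _ hi, Matrix.mulVec_mulVec,
          show (1 - p + c • p) * p = c • p by
            rw [add_mul, sub_mul, one_mul, hp, sub_self, zero_add, smul_mul_assoc, hp],
          Matrix.smul_mulVec]
      · rw [if_neg hi, Finset.piecewise_eq_of_notMem _ _ _ hi, Matrix.mulVec_mulVec, one_smul,
          show (1 - p + c • p) * (1 - p) = 1 - p by
            have h5 : p * (1 - p) = 0 := by rw [mul_sub, mul_one, hp, sub_self]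
            rw [add_mul, sub_mul, one_mul, smul_mul_assoc, h5, smul_zero, add_zero, sub_zero]]
    rw [h3, MultilinearMap.map_smul_univ, Finset.prod_ite, Finset.prod_const, Finset.prod_const,
      one_pow, mul_one]
    congr 2
    rw [Finset.filter_mem_eq_inter, Finset.univ_inter]

end

end Pool.Agent.P8H28.QF
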